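import Pool.Agent.R413.SQ.Cor
import Pool.Agent.U693.X49.Sym
import Pool.Agent.U693.X49.Comb

/-!
# The weak conjecture for the twists of `X_0(49)` by products of primes from ARBITRARY sets of primes

`E_D : y² = x³ - 35 D² x - 98 D³` is the quadratic twist by `D` of `X_0(49)`, `D` a squarefree product of
primes `≡ 1 mod 4` (the class). For such a `D` call a prime `p ≡ 1 mod 4` admissible if `-7 D²` is not a
fourth power modulo `p` (in particular `p ∤ D`; all primes which are inert in `ℚ(√-7)` and do not divide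
`D` are admissible, and half of the split ones). `Good D` says that `E_D(ℚ)` is finite, `Ш(E_D/ℚ)[2^∞] = 0`
and `L(E_D, s)` is entire with `L(E_D, 1) ≠ 0`: both sides of the weak conjecture fail, with no hypothesis.

Let `D` be in the class, `E_D(ℚ)` finite and `Ш(E_D/ℚ)[2] = 0` (for instance `D = 1`), and `k` even.

* FINITE SETS: if `S` is ANY finite set of admissible primes with at least `N = 2 ^ (2 k + ω(D) + 1)`
  elements, then `D ∏ A` is good for at least `(|S| choose k) / (N choose k)` of the `k`-subsets `A` of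
  `S`: a positive proportion which does not depend on `S`.
* INFINITE SETS: let `S` be ANY infinite set of primes `≡ 1 mod 4`. There is an infinite `T ⊆ S` such that
  `D ∏ A` is good for ALL finite subsets `A` of `T` with an even number of elements if and only if
  infinitely many primes of `S` are admissible for `D`.
* PAIRS: if `p ≠ q` are admissible, both split or both inert in `ℚ(√-7)`, and `p / q` is a square modulo
  all the primes dividing `D`, then `D p q` is good (and this can be repeated). For `D = 1`: the product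
  of two different primes `≡ 1 mod 4` of the same type is good if `-7` is no fourth power modulo them.
* SHARPNESS: if `A` is not empty and `-7` is a fourth power modulo all `p ∈ A`, then `E(ℚ)` is infinite or
  `Ш(E/ℚ)[2] ≠ 0` for the twist `E` by `∏ A`.

The criterion for a single `D` in terms of a symmetric matrix over `𝔽₂` is that of the starting file
`MP_4a9ea6_nt/TwoPartTwistsX49` (in the form of `Pool/Agent/R413/SQ/Cor.lean`). New here: the extension of
a nonsingular matrix by an even homogeneous set of primes, and Ramsey's theorem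
(`Pool/Agent/U693/X49`).
-/

set_option autoImplicit false

open scoped Classical

open WeierstrassCurve

namespace Pool.Agent.Results.MP_8b7eba_nt.ArbitraryPrimeSets

open Pool.Agent.TH841.NF.D (Sha)

/-- the coefficient of `x` -/
def A (D : ℕ) : ℤ := -35 * (D : ℤ) ^ 2

/-- the constant coefficient -/
def B (D : ℕ) : ℤ := -98 * (D : ℤ) ^ 3

/-- the twist `y² = x³ - 35 D² x - 98 D³` of `X_0(49)` -/
def twist (D : ℕ) : WeierstrassCurve ℚ :=
  { a₁ := 0, a₂ := 0, a₃ := 0, a₄ := (A D : ℚ), a₆ := (B D : ℚ) }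

/-- the class: squarefree products of primes `≡ 1 mod 4` -/
def Class (D : ℕ) : Prop := Squarefree D ∧ ∀ p ∈ D.primeFactors, p % 4 = 1

/-- `E_D(ℚ)` is finite and `Ш(E_D/ℚ)` has no element of order two -/
def TrivialTwo (D : ℕ) : Prop :=
  Finite (twist D).toAffine.Point ∧ ∀ x : Sha (twist D), 2 • x = 0 → x = 0

/-- `L(E_D, s)`, the Euler product over the primes `p ∤ 2 (4 a³ + 27 b²)`, `a = A D`, `b = B D`, extends to
an entire function which does not vanish at `s = 1` -/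
def Nonvanishing (D : ℕ) : Prop :=
  4 * A D ^ 3 + 27 * B D ^ 2 ≠ 0 ∧
    ∃ F : ℂ → ℂ, Differentiable ℂ F ∧
      (∀ s : ℂ, (3 : ℝ) / 2 < s.re →
        HasProd
          (fun p : ℕ => if p.Prime ∧ ¬ ((p : ℤ) ∣ 2 * (-4 * A D ^ 3 - 27 * B D ^ 2)) then
              (1 - ((p : ℂ) - (Nat.card {q : ZMod p × ZMod p //
                  q.2 ^ 2 = q.1 ^ 3 + (A D : ZMod p) * q.1 + (B D : ZMod p)} : ℂ))
                  * (p : ℂ) ^ (-s) + (p : ℂ) ^ (1 - 2 * s))⁻¹
            else 1)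
          (F s)) ∧ F 1 ≠ 0

/-- `E_D(ℚ)` is finite, `Ш(E_D/ℚ)[2^∞] = 0` and `L(E_D, 1) ≠ 0` -/
def Good (D : ℕ) : Prop :=
  Finite (twist D).toAffine.Point ∧ (∀ (n : ℕ) (x : Sha (twist D)), 2 ^ n • x = 0 → x = 0) ∧
    Nonvanishing D

/-- `p ≡ 1 mod 4` is a prime such that `-7 D²` is not a fourth power modulo `p` -/
def Admissible (D p : ℕ) : Prop :=
  p.Prime ∧ p % 4 = 1 ∧ ¬ ∃ y : ZMod p, y ^ 4 = -7 * (D : ZMod p) ^ 2

section proof

open Pool.Agent.R413.SQ
open Pool.Agent.Results.MP_4a9ea6_nt.TwoPartTwistsX49 (Adm mat adm_mod)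
open Pool.Agent.U693.X49
open Pool.Agent.Y703.CQ (nr)
open Pool.Agent.Y698.SG (n4)
open Pool.Agent.R413.SQ.BOX (nr_self nr_symm)

theorem disc_ne {D : ℕ} (hD : D ≠ 0) : 4 * (A D) ^ 3 + 27 * (B D) ^ 2 ≠ 0 := by
  have h : (D : ℤ) ≠ 0 := by exact_mod_cast hD
  have e : 4 * (A D) ^ 3 + 27 * (B D) ^ 2 = 87808 * (D : ℤ) ^ 6 := by
    unfold A B
    ring
  rw [e]
  positivity

theorem tt_iff {D : ℕ} (h : Adm D) : TrivialTwo D ↔ Gd n4 D.primeFactors :=
  (Cor.crit h).trans (Cor.det_iff h)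

theorem good_of {D : ℕ} (h : Adm D) (hG : Gd n4 D.primeFactors) : Good D := by
  have hd := (Cor.det_iff h).2 hG
  obtain ⟨F, g1, g2, g3, -⟩ := Cor.rank_bsd h hd
  refine ⟨((Cor.crit h).2 hd).1, fun n x hx => ?_, disc_ne h.1.ne_zero, F, g1, g2,
    (g1.analyticAt 1).analyticOrderAt_eq_zero.1 g3⟩
  have h4 := adm_mod h
  have e2 := (Pool.Agent.Y655.XT.isoVR (Cor.vr h4) (Cor.discM h4)).sha
  have h1 := (Pool.Agent.Results.MP_4a9ea6_nt.TwoPartTwistsX49.core h).2.2.2.2.1 hd n (e2.symm x)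
    (by rw [← map_nsmul]; exact (congrArg e2.symm hx).trans (map_zero _))
  exact (map_eq_zero_iff e2.symm e2.symm.injective).1 h1

theorem prod_fac {S : Finset ℕ} (h : ∀ p ∈ S, p.Prime ∧ p % 4 = 1) :
    Adm (∏ p ∈ S, p) ∧ (∏ p ∈ S, p).primeFactors = S := by
  have h1 : (∏ p ∈ S, p).primeFactors = S := Nat.primeFactors_prod fun p hp => (h p hp).1
  refine ⟨⟨?_, fun p hp => ?_⟩, h1⟩
  · refine Finset.squarefree_prod_of_pairwise_isCoprime ?_ fun p hp => (h p hp).1.squarefree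
    intro p hp q hq hpq
    exact Nat.coprime_iff_isRelPrime.1 ((Nat.coprime_primes (h p hp).1 (h q hq).1).2 hpq)
  · rw [h1] at hp
    exact (h p hp).2

theorem mul_fac {D : ℕ} (hD : Adm D) {S : Finset ℕ} (h : ∀ p ∈ S, p.Prime ∧ p % 4 = 1)
    (hd : ∀ p ∈ S, ¬ p ∣ D) :
    Adm (D * ∏ p ∈ S, p) ∧ (D * ∏ p ∈ S, p).primeFactors = D.primeFactors ∪ S := by
  obtain ⟨h1, h2⟩ := prod_fac h
  have h3 : (D * ∏ p ∈ S, p).primeFactors = D.primeFactors ∪ S := by
    rw [Nat.primeFactors_mul hD.1.ne_zero h1.1.ne_zero, h2]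
  refine ⟨⟨?_, fun p hp => ?_⟩, h3⟩
  · refine (Nat.squarefree_mul_iff).2 ⟨?_, hD.1, h1.1⟩
    refine Nat.Coprime.prod_right fun p hp => ?_
    exact (((h p hp).1.coprime_iff_not_dvd).2 (hd p hp)).symm
  · rw [h3] at hp
    rcases Finset.mem_union.1 hp with h' | h'
    · exact hD.2 p h'
    · exact (h p h').2

theorem ndvd {D p : ℕ} (h : Admissible D p) : ¬ p ∣ D := by
  intro hd
  refine h.2.2 ⟨0, ?_⟩
  rw [(ZMod.natCast_eq_zero_iff _ _).2 hd]
  ring

theorem cast_ne {D p l : ℕ} (hp : p.Prime) (hd : ¬ p ∣ D) (hl : l ∈ D.primeFactors) :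
    (l : ZMod p) ≠ 0 := by
  intro h0
  rw [ZMod.natCast_eq_zero_iff] at h0
  exact hd (h0.trans (Nat.dvd_of_mem_primeFactors hl))

theorem nr_sq (p l : ℕ) [Fact p.Prime] : nr p l = U693.X49.sq (l : ZMod p) := by
  unfold nr U693.X49.sq
  by_cases h : IsSquare (l : ZMod p)
  · rw [if_pos h, if_pos h]
  · rw [if_neg h, if_neg h]

theorem dl_iff {D p : ℕ} (hD : Squarefree D) (hp : p.Prime) (h4 : p % 4 = 1) (hd : ¬ p ∣ D) :
    (R413.SQ.mk p = 1 → Pool.Agent.U693.X49.dl n4 D.primeFactors p = 1) ↔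
      ¬ ∃ y : ZMod p, y ^ 4 = -7 * (D : ZMod p) ^ 2 := by
  have : Fact p.Prime := ⟨hp⟩
  have hl : ∀ l ∈ D.primeFactors, (l : ZMod p) ≠ 0 := fun l h => cast_ne hp hd h
  by_cases hm : R413.SQ.mk p = 1
  · have h7 := (Cor.mk_iff hp h4).2 hm
    have h1 := symbol h4 h7 hl
    rw [Nat.prod_primeFactors_of_squarefree hD] at h1
    rw [← h1]
    have e : Pool.Agent.U693.X49.dl n4 D.primeFactors p =
        (if ∃ y : ZMod p, y ^ 4 = -7 then (0 : ZMod 2) else 1) +
          ∑ l ∈ D.primeFactors, U693.X49.sq (l : ZMod p) := by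
      unfold Pool.Agent.U693.X49.dl n4
      refine congrArg₂ (· + ·) ?_ (Finset.sum_congr rfl fun l _ => nr_sq p l)
      by_cases h : ∃ y : ZMod p, y ^ 4 = -7
      · rw [if_pos h, if_pos h]
      · rw [if_neg h, if_neg h]
    rw [e]
    exact ⟨fun h => h hm, fun h _ => h⟩
  · have h7 : ¬ IsSquare (-7 : ZMod p) := fun h => hm ((Cor.mk_iff hp h4).1 h)
    have hD0 : (D : ZMod p) ≠ 0 := by
      intro h0
      exact hd ((ZMod.natCast_eq_zero_iff _ _).1 h0)
    exact ⟨fun _ => inert_sym h7 hD0, fun _ h => absurd h hm⟩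

theorem sym_all {p q : ℕ} (hp : p.Prime ∧ p % 4 = 1) (hq : q.Prime ∧ q % 4 = 1) : nr p q = nr q p :=
  nr_symm hp.1 hp.2 hq.1 (by rintro rfl; omega)

theorem fac_pr {D l : ℕ} (hD : Adm D) (hl : l ∈ D.primeFactors) : l.Prime ∧ l % 4 = 1 :=
  ⟨Nat.prime_of_mem_primeFactors hl, hD.2 l hl⟩

theorem ad_of {D p : ℕ} (hD : Adm D) (h : Admissible D p) : Ad n4 D.primeFactors p where
  nm hp := ndvd h (Nat.dvd_of_mem_primeFactors hp)
  sy i hi := sym_all ⟨h.1, h.2.1⟩ (fac_pr hD hi)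
  dl := (dl_iff hD.1 h.1 h.2.1 (ndvd h)).2 h.2.2

theorem good_mul {D : ℕ} (hD : Adm D) {S : Finset ℕ} (h : ∀ p ∈ S, Admissible D p)
    (hG : Gd n4 (D.primeFactors ∪ S)) : Good (D * ∏ p ∈ S, p) := by
  obtain ⟨h1, h2⟩ := mul_fac hD (fun p hp => ⟨(h p hp).1, (h p hp).2.1⟩) fun p hp => ndvd (h p hp)
  rw [← h2] at hG
  exact good_of h1 hG

theorem fin_part {D : ℕ} (hD : Adm D) (hT : TrivialTwo D) {k : ℕ} (hk : Even k) (S : Finset ℕ)
    (hS : ∀ p ∈ S, Admissible D p) (hc : 2 ^ (2 * k + D.primeFactors.card + 1) ≤ S.card) :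
    S.card.choose k ≤ (2 ^ (2 * k + D.primeFactors.card + 1)).choose k *
      ((S.powersetCard k).filter fun T => Good (D * ∏ p ∈ T, p)).card := by
  refine (fin_main nr_self ((tt_iff hD).1 hT) hk S (fun q hq => ad_of hD (hS q hq))
    (fun p hp q hq => sym_all ⟨(hS p hp).1, (hS p hp).2.1⟩ ⟨(hS q hq).1, (hS q hq).2.1⟩) hc).trans ?_
  refine Nat.mul_le_mul_left _ (Finset.card_le_card ?_)
  intro T hT'
  rw [Finset.mem_filter] at hT' ⊢
  exact ⟨hT'.1, good_mul hD (fun p hp => hS p ((Finset.mem_powersetCard.1 hT'.1).1 hp)) hT'.2⟩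

theorem good_tt {D : ℕ} (h : Good D) : TrivialTwo D :=
  ⟨h.1, fun x hx => h.2.1 1 x (by rwa [pow_one])⟩

theorem inf_part {D : ℕ} (hD : Adm D) (hT : TrivialTwo D) (S : Set ℕ)
    (hS : ∀ p ∈ S, p.Prime ∧ p % 4 = 1) :
    (∃ T ⊆ S, T.Infinite ∧ ∀ U : Finset ℕ, (U : Set ℕ) ⊆ T → Even U.card →
      Good (D * ∏ p ∈ U, p)) ↔ {p ∈ S | Admissible D p}.Infinite := by
  have hiff : ∀ U : Finset ℕ, (∀ p ∈ U, p ∈ S) → (∀ p ∈ U, ¬ p ∣ D) →
      (Good (D * ∏ p ∈ U, p) ↔ Gd n4 (D.primeFactors ∪ U)) := by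
    intro U hU hUD
    obtain ⟨h1, h2⟩ := mul_fac hD (fun p hp => hS p (hU p hp)) hUD
    rw [← h2]
    exact ⟨fun h => (tt_iff h1).1 (good_tt h), good_of h1⟩
  have h1 := inf_iff nr_self ((tt_iff hD).1 hT) (S \ (D.primeFactors : Set ℕ))
    (fun p hp q hq => sym_all (hS p hp.1) (hS q hq.1))
    (fun q hq i hi => sym_all (hS q hq.1) (fac_pr hD hi))
  have hnd : ∀ p ∈ S \ (D.primeFactors : Set ℕ), ¬ p ∣ D := by
    intro p hp hd
    exact hp.2 (Finset.mem_coe.2 (Nat.mem_primeFactors.2 ⟨(hS p hp.1).1, hd, hD.1.ne_zero⟩))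
  have h2 : {q ∈ S \ (D.primeFactors : Set ℕ) | R413.SQ.mk q = 1 →
      Pool.Agent.U693.X49.dl n4 D.primeFactors q = 1} = {p ∈ S | Admissible D p} := by
    ext p
    constructor
    · rintro ⟨h2, h3⟩
      have h4 := hS p h2.1
      exact ⟨h2.1, h4.1, h4.2, (dl_iff hD.1 h4.1 h4.2 (hnd p h2)).1 h3⟩
    · rintro ⟨h2, h3⟩
      have h4 : p ∉ (D.primeFactors : Set ℕ) := fun h' =>
        ndvd h3 (Nat.dvd_of_mem_primeFactors (Finset.mem_coe.1 h'))
      exact ⟨⟨h2, h4⟩, (dl_iff hD.1 h3.1 h3.2.1 (ndvd h3)).2 h3.2.2⟩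
  rw [← h2, ← h1]
  constructor
  · rintro ⟨T, hT1, hT2, hT3⟩
    refine ⟨T \ (D.primeFactors : Set ℕ), fun p hp => ⟨hT1 hp.1, hp.2⟩,
      hT2.sdiff (Finset.finite_toSet _), fun U hU hUe => ?_⟩
    have hU1 : ∀ p ∈ U, p ∈ S \ (D.primeFactors : Set ℕ) := fun p hp =>
      ⟨hT1 (hU (Finset.mem_coe.2 hp)).1, (hU (Finset.mem_coe.2 hp)).2⟩
    exact (hiff U (fun p hp => (hU1 p hp).1) fun p hp => hnd p (hU1 p hp)).1
      (hT3 U (fun p hp => (hU hp).1) hUe)
  · rintro ⟨T, hT1, hT2, hT3⟩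
    refine ⟨T, fun p hp => (hT1 hp).1, hT2, fun U hU hUe => ?_⟩
    have hU1 : ∀ p ∈ U, p ∈ S \ (D.primeFactors : Set ℕ) := fun p hp =>
      hT1 (hU (Finset.mem_coe.2 hp))
    exact (hiff U (fun p hp => (hU1 p hp).1) fun p hp => hnd p (hU1 p hp)).2 (hT3 U hU hUe)

theorem pair_part {D : ℕ} (hD : Adm D) (hT : TrivialTwo D) {p q : ℕ} (hp : Admissible D p)
    (hq : Admissible D q) (hpq : p ≠ q) (ht : IsSquare (-7 : ZMod p) ↔ IsSquare (-7 : ZMod q))
    (hs : ∀ l ∈ D.primeFactors, (IsSquare (p : ZMod l) ↔ IsSquare (q : ZMod l))) :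
    Good (D * (p * q)) := by
  have hA : ∀ r ∈ ({p, q} : Finset ℕ), Admissible D r := by
    intro r hr
    rcases Finset.mem_insert.1 hr with rfl | hr
    · exact hp
    · rw [Finset.mem_singleton.1 hr]
      exact hq
  have hcol : col D.primeFactors p = col D.primeFactors q := by
    unfold col
    refine Prod.ext ?_ ?_
    · have h1 : R413.SQ.mk p = 1 ↔ R413.SQ.mk q = 1 := by
        rw [← Cor.mk_iff hp.1 hp.2.1, ← Cor.mk_iff hq.1 hq.2.1]
        exact ht
      simp only [h1]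
    · funext i
      have h1 := hs i i.2
      show nr i p = nr i q
      unfold nr
      by_cases h2 : IsSquare (p : ZMod i)
      · rw [if_pos h2, if_pos (h1.1 h2)]
      · rw [if_neg h2, if_neg fun h' => h2 (h1.2 h')]
  have hsy : nr p q = nr q p := sym_all ⟨hp.1, hp.2.1⟩ ⟨hq.1, hq.2.1⟩
  have hH : Hom D.primeFactors {p, q} := by
    refine ⟨fun a ha b hb => ?_, fun a ha b hb c hc d hd hab hcd => ?_⟩
    · simp only [Finset.mem_insert, Finset.mem_singleton] at ha hb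
      rcases ha with rfl | rfl <;> rcases hb with rfl | rfl
      · rfl
      · exact hcol
      · exact hcol.symm
      · rfl
    · simp only [Finset.mem_insert, Finset.mem_singleton] at ha hb hc hd
      have h1 : nr a b = nr p q := by
        rcases ha with rfl | rfl <;> rcases hb with rfl | rfl
        · exact absurd rfl hab
        · rfl
        · exact hsy.symm
        · exact absurd rfl hab
      have h2 : nr c d = nr p q := by
        rcases hc with rfl | rfl <;> rcases hd with rfl | rfl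
        · exact absurd rfl hcd
        · rfl
        · exact hsy.symm
        · exact absurd rfl hcd
      rw [h1, h2]
  have h1 := good_mul hD hA (gd_hom nr_self (fun r hr => ad_of hD (hA r hr)) hH
    (by rw [Finset.card_pair hpq]; exact even_two) ((tt_iff hD).1 hT))
  rwa [Finset.prod_pair hpq] at h1

theorem neg_part {U : Finset ℕ} (hU : U.Nonempty)
    (h : ∀ p ∈ U, p.Prime ∧ p % 4 = 1 ∧ ∃ y : ZMod p, y ^ 4 = -7) : ¬ TrivialTwo (∏ p ∈ U, p) := by
  obtain ⟨h1, h2⟩ := prod_fac fun p hp => ⟨(h p hp).1, (h p hp).2.1⟩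
  rw [tt_iff h1, h2]
  refine not_gd hU (fun q hq => ?_) fun q hq => ?_
  · rw [← Cor.mk_iff (h q hq).1 (h q hq).2.1]
    obtain ⟨y, hy⟩ := (h q hq).2.2
    exact ⟨y ^ 2, by rw [← hy]; ring⟩
  · unfold Pool.Agent.Y698.SG.n4
    exact if_pos (h q hq).2.2

theorem one_part : TrivialTwo 1 := by
  have h : Adm 1 := ⟨squarefree_one, fun p hp => by simp at hp⟩
  rw [tt_iff h]
  intro x _ p hp
  simp at hp

end proof

theorem result :
    Class 1 ∧ TrivialTwo 1 ∧
    (∀ D : ℕ, Class D → TrivialTwo D →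
      -- every finite set of admissible primes
      (∀ (k : ℕ) (S : Finset ℕ), Even k → (∀ p ∈ S, Admissible D p) →
        2 ^ (2 * k + D.primeFactors.card + 1) ≤ S.card →
        S.card.choose k ≤ (2 ^ (2 * k + D.primeFactors.card + 1)).choose k *
          ((S.powersetCard k).filter fun T => Good (D * ∏ p ∈ T, p)).card) ∧
      -- every infinite set of primes
      (∀ S : Set ℕ, (∀ p ∈ S, p.Prime ∧ p % 4 = 1) →
        ((∃ T ⊆ S, T.Infinite ∧ ∀ U : Finset ℕ, (U : Set ℕ) ⊆ T → Even U.card →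
          Good (D * ∏ p ∈ U, p)) ↔ {p ∈ S | Admissible D p}.Infinite)) ∧
      -- pairs
      (∀ p q : ℕ, Admissible D p → Admissible D q → p ≠ q →
        (IsSquare (-7 : ZMod p) ↔ IsSquare (-7 : ZMod q)) →
        (∀ l ∈ D.primeFactors, (IsSquare (p : ZMod l) ↔ IsSquare (q : ZMod l))) →
        Good (D * (p * q)))) ∧
    -- the condition on the primes cannot be dropped
    (∀ U : Finset ℕ, U.Nonempty → (∀ p ∈ U, p.Prime ∧ p % 4 = 1 ∧ ∃ y : ZMod p, y ^ 4 = -7) →
      ¬ TrivialTwo (∏ p ∈ U, p)) :=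
  ⟨⟨squarefree_one, fun p hp => by simp at hp⟩, one_part,
    fun _ hD hT => ⟨fun _ S hk hS hc => fin_part hD hT hk S hS hc,
      fun S hS => inf_part hD hT S hS,
      fun _ _ hp hq hpq ht hs => pair_part hD hT hp hq hpq ht hs⟩,
    fun _ hU h => neg_part hU h⟩

end Pool.Agent.Results.MP_8b7eba_nt.ArbitraryPrimeSets
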