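import Pool.Agent.Y703.CX.Rank
import Pool.Agent.U880.CTA.Ar2

/-!
# The weak conjecture for cubic twists by products of primes from ARBITRARY sets of primes `≡ 1 mod 3`

`E_N : y² + N y = x³` is `3`-isogenous over `ℚ` to the cubic twist `C_N : y² = x³ - 432 N²`, that is
`x³ + y³ = N`. The class consists of the cube-free `N` prime to `3`, not `±1` modulo `9`, with exactly one
prime divisor `≡ 2` modulo `3`. `Good N` says that `N` is in the class, `E_N(ℚ)` is finite,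
`Ш(E_N/ℚ)[3^∞] = 0`, `L(C_N, s)` is entire, `L(C_N, 1) ≠ 0` and `C_N(ℚ)` is finite: both sides of the weak
conjecture fail, with no hypothesis. A prime `p ≡ 1` modulo `3` is admissible for `D` if it does not
divide `D` and `D` is not a cube modulo `p`. Let `D` be good, for example `D = q` or `q²` with a prime
`q ≡ 2, 5` modulo `9`.

* PAIRS. If `p ≠ r` are admissible and of the same type with respect to `D`, then `D p r²` or `D p² r` is
  good. For `D = q` or `q²` this is so for ANY two primes `p ≡ r` modulo `9` modulo which `q` is no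
  cube: for instance for `x³ + y³ = 2 p r²` or `x³ + y³ = 2 p² r`.
* FINITE SETS. If `S` is ANY finite set of admissible primes with at least `N = 9 ^ (18 m + ω(D) + 1)`
  elements, then for at least `(|S| choose 2 m) / (N choose 2 m)` of the subsets `A` of `S` with `2 m`
  elements there are exponents `x_p = 1, 2` such that `D ∏ p ^ x_p`, `p ∈ A`, is good.
* INFINITE SETS. Let `S` be ANY infinite set of primes `≡ 1` modulo `3`. Infinitely many primes of `S`
  are admissible if and only if there are an infinite `T ⊆ S` and `σ = 1` or `2` such that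
  `D p_0^σ p_1^(3-σ) p_2^σ p_3^(3-σ) ⋯ p_(2m-1)^(3-σ)` is good for ALL `p_0 < p_1 < ⋯ < p_(2m-1)` in `T`.
* SHARPNESS. If `D` is a cube modulo all `p ∈ A ≠ ∅` and `∏ p ^ x_p` is a cube modulo all the primes
  `≡ 1` modulo `3` that divide `D`, then `E_N(ℚ)` is infinite or `Ш(E_N/ℚ)[3^∞] ≠ 0`, `N = D ∏ p ^ x_p`.

Over `ℚ` the symbols of `p` modulo `r` and of `r` modulo `p` are independent (there is no reciprocity law for
them), so that the products of all primes of an even (or any) number of elements of a homogeneous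
set are in general not good; the alternating exponents repair this.

The criterion for one `N` (a system of linear equations over the field with three elements) is that of the
starting files (`Pool.Agent.Y703.CT.fin_all`, `Q283.Q3N`). New here: the extension theorem for matrices
that are not symmetric with alternating weights (`Pool/Agent/U880/CTA/Lin.lean`), and its consequences.
The use of Ramsey's theorem follows helper693 (quadratic twists of `X_0(49)`, symmetric matrices).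
-/

set_option autoImplicit false
set_option maxHeartbeats 1000000

open scoped Classical

namespace Pool.Agent.Results.MP_8b7eba_nt.CubicTwistsPrimeSets

open WeierstrassCurve Finset

/-- The curve `E_N : y² + N y = x³`. -/
def curve {F : Type} [Field F] (N : F) : WeierstrassCurve F := ⟨0, 0, N, 0, 0⟩

/-- `E_N(ℚ)` is finite and `Ш(E_N/ℚ)[3^∞] = 0` -/
def TrivialThree (N : ℕ) : Prop :=
  Finite (curve (N : ℚ)).toAffine.Point ∧
    ∀ (n : ℕ) (x : Pool.Agent.TH841.SH.D.Sha (curve (N : ℚ))), 3 ^ n • x = 0 → x = 0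

/-- The weak conjecture for `C_N : y² = x³ + b`, `b = - 432 N²`, with both sides false: the Euler product
over the primes `p ∤ 2 (4 A³ + 27 B²)`, `A = 0`, `B = b`, extends to an entire function `F` with
`F 1 ≠ 0`, and `C_N(ℚ)` is finite. -/
def WeakHolds (N : ℕ) : Prop :=
  ∃ b : ℤ, b = -432 * (N : ℤ) ^ 2 ∧ b ≠ 0 ∧
    (∃ F : ℂ → ℂ, Differentiable ℂ F ∧
      (∀ s : ℂ, (3 : ℝ) / 2 < s.re →
        HasProd
          (fun p : ℕ =>
            if p.Prime ∧ ¬ ((p : ℤ) ∣ 2 * (4 * 0 ^ 3 + 27 * b ^ 2)) then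
              (1 - ((p : ℂ) - (Nat.card {q : ZMod p × ZMod p // q.2 ^ 2 = q.1 ^ 3 + (b : ZMod p)} : ℂ))
                  * (p : ℂ) ^ (-s) + (p : ℂ) ^ (1 - 2 * s))⁻¹
            else 1)
          (F s)) ∧ F 1 ≠ 0) ∧
    Finite (WeierstrassCurve.toAffine (⟨0, 0, 0, 0, (b : ℚ)⟩ : WeierstrassCurve ℚ)).Point

/-- the class: `N` cube-free, prime to `3`, not `±1` modulo `9`, exactly one prime divisor
congruent to `2` modulo `3` -/
def Class (N : ℕ) : Prop :=
  N ≠ 0 ∧ ¬ 3 ∣ N ∧ (∀ p : ℕ, p.Prime → ¬ p ^ 3 ∣ N) ∧ N % 9 ≠ 1 ∧ N % 9 ≠ 8 ∧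
    ∃ q : ℕ, q.Prime ∧ q % 3 = 2 ∧ q ∣ N ∧ ∀ p : ℕ, p.Prime → p ∣ N → p ≠ q → p % 3 = 1

/-- `N` is in the class, `E_N(ℚ)` is finite, `Ш(E_N/ℚ)[3^∞] = 0`, and both sides of the weak conjecture
are false for `C_N` -/
def Good (N : ℕ) : Prop := Class N ∧ TrivialThree N ∧ WeakHolds N

/-- `n` is a cube modulo `p` -/
def CubeMod (p n : ℕ) : Prop := ∃ x : ℤ, (p : ℤ) ∣ (n : ℤ) - x ^ 3

/-- the admissible primes -/
def Admissible (D p : ℕ) : Prop := p.Prime ∧ p % 3 = 1 ∧ ¬ p ∣ D ∧ ¬ CubeMod p D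

/-- two primes `p`, `r` of the same type with respect to `D`: they are congruent modulo `9`, `p / r` is a
cube modulo all the prime divisors `≡ 1` modulo `3` of `D`, and for all prime divisors `d` of `D` the numbers
`d`, `d D`, `d D²` are cubes modulo `p` if and only if they are cubes modulo `r` -/
def SameType (D p r : ℕ) : Prop :=
  p % 9 = r % 9 ∧ (∀ d ∈ D.primeFactors, d % 3 = 1 → CubeMod d (p * r ^ 2)) ∧
    ∀ d ∈ D.primeFactors, ∀ j < 3, (CubeMod p (d * D ^ j) ↔ CubeMod r (d * D ^ j))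

section proof

open Pool.Agent.U880.CTA
open Pool.Agent.Y703.CX (lam)
open Pool.Agent.Y703.CT (Cls NoSplit Triv3)
open Q283.Q3N (triv_iff lam_pow)

theorem class_iff (N : ℕ) : Class N ↔ Cls N := by
  unfold Class Cls Pool.Agent.Y703.CT.Base
  constructor
  · rintro ⟨h1, h2, h3, h4⟩
    exact ⟨⟨h1, h2, h3⟩, h4⟩
  · rintro ⟨⟨h1, h2, h3⟩, h4⟩
    exact ⟨h1, h2, h3, h4⟩

theorem three_iff (N : ℕ) : TrivialThree N ↔ Triv3 N := by
  have h : Pool.Agent.Y703.CT.EQ (Pool.Agent.Y703.CT.WD N) = curve (N : ℚ) := by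
    unfold Pool.Agent.Y703.CT.EQ Pool.Agent.Y703.CT.WD curve WeierstrassCurve.map
    simp
  unfold TrivialThree Triv3
  rw [h]

theorem weak {N : ℕ} (hC : Cls N) (hN : NoSplit N) : WeakHolds N := by
  have hT := (triv_iff hC).2 hN
  have hD0 : (N : ℤ) ≠ 0 := by exact_mod_cast hC.1.1
  obtain ⟨F, h1, h2, h3, h4⟩ := Pool.Agent.Y703.CX.rank_form hC hN
  refine ⟨_, rfl, by positivity, ⟨F, h1, fun s hs => ?_, ?_⟩, ?_⟩
  · refine (h2 s hs).congr_fun ?_
    intro p
    have e1 : (2 * (4 * 0 ^ 3 + 27 * (-432 * (N : ℤ) ^ 2) ^ 2) : ℤ) =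
        -(2 * (-4 * 0 ^ 3 - 27 * (-432 * (N : ℤ) ^ 2) ^ 2)) := by ring
    rw [e1]
    simp only [dvd_neg, Int.cast_zero, zero_mul, add_zero]
  · exact (h1.analyticAt 1).analyticOrderAt_eq_zero.1 h3
  · exact Pool.Agent.Y687.finite_pt_of_set (Pool.Agent.Y703.CX.fin_pts hD0 hT.1)

theorem good_iff (N : ℕ) : Good N ↔ Cls N ∧ NoSplit N := by
  constructor
  · rintro ⟨h1, h2, -⟩
    have hC := (class_iff N).1 h1
    exact ⟨hC, (triv_iff hC).1 ((three_iff N).1 h2)⟩
  · rintro ⟨h1, h2⟩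
    exact ⟨(class_iff N).2 h1, (three_iff N).2 ((triv_iff h1).2 h2), weak h1 h2⟩

theorem cm_iff {p n : ℕ} (hp : p.Prime) (h1 : p % 3 = 1) (hn : ¬ p ∣ n) :
    CubeMod p n ↔ lam p n = 0 := (LP.cube p n hp h1 hn).symm

theorem adm_iff (D p : ℕ) : Admissible D p ↔ Adb D p := by
  unfold Admissible Adb
  refine and_congr_right fun hp => and_congr_right fun h1 => and_congr_right fun hd => ?_
  rw [cm_iff hp h1 hd]

theorem base {q k : ℕ} (hq : q.Prime) (h9 : q % 9 = 2 ∨ q % 9 = 5) (hk : k = 1 ∨ k = 2) :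
    Good (q ^ k) := by
  have hC : Cls (q ^ k) := by
    refine ⟨⟨pow_ne_zero _ hq.ne_zero, ?_, ?_⟩, ?_, ?_, q, hq, by omega,
      dvd_pow_self q (by omega), ?_⟩
    · intro h
      have h3 := (Nat.prime_dvd_prime_iff_eq Nat.prime_three hq).1 (Nat.prime_three.dvd_of_dvd_pow h)
      omega
    · intro p hp h
      have hpq := (Nat.prime_dvd_prime_iff_eq hp hq).1
        (hp.dvd_of_dvd_pow ((dvd_pow_self p (by norm_num)).trans h))
      subst hpq
      have := (Nat.pow_dvd_pow_iff_le_right hp.one_lt).1 h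
      omega
    · rcases hk with rfl | rfl
      · rw [pow_one]; omega
      · rw [Nat.pow_mod]; rcases h9 with h | h <;> rw [h] <;> decide
    · rcases hk with rfl | rfl
      · rw [pow_one]; omega
      · rw [Nat.pow_mod]; rcases h9 with h | h <;> rw [h] <;> decide
    · intro p hp h hne
      exact absurd ((Nat.prime_dvd_prime_iff_eq hp hq).1 (hp.dvd_of_dvd_pow h)) hne
  exact (good_iff _).2 ⟨hC, noSplit_prime_pow hC hq (by omega)⟩

theorem pairs {D p r : ℕ} (hD : Good D) (hp : Admissible D p) (hr : Admissible D r) (hne : p ≠ r)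
    (hs : SameType D p r) : Good (D * (p * r ^ 2)) ∨ Good (D * (p ^ 2 * r)) := by
  obtain ⟨hC, hN⟩ := (good_iff D).1 hD
  rw [adm_iff] at hp hr
  have h := pair_good hC hN hp hr hne hs.1 ?_ ?_
  · rcases h with h | h
    · exact Or.inl ((good_iff _).2 h)
    · exact Or.inr ((good_iff _).2 h)
  · intro d hd h1
    have hdp := Nat.prime_of_mem_primeFactors hd
    have hdD := Nat.dvd_of_mem_primeFactors hd
    have n1 : ¬ d ∣ p := by
      intro h
      have := (Nat.prime_dvd_prime_iff_eq hdp hp.1).1 h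
      exact hp.2.2.1 (this ▸ hdD)
    have n2 : ¬ d ∣ r := by
      intro h
      have := (Nat.prime_dvd_prime_iff_eq hdp hr.1).1 h
      exact hr.2.2.1 (this ▸ hdD)
    have n3 : ¬ d ∣ r ^ 2 := fun h => n2 (hdp.dvd_of_dvd_pow h)
    have h3 := (cm_iff hdp h1 (fun h => (hdp.dvd_mul.1 h).elim n1 n3)).1 (hs.2.1 d hd h1)
    rw [LP.mul d _ _ hdp h1 n1 n3, lam_pow LP hdp h1 n2] at h3
    have key : ∀ x y : ZMod 3, x + ((2 : ℕ) : ZMod 3) * y = 0 → x = y := by decide
    exact key _ _ h3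
  · intro d hd
    have hdp := Nat.prime_of_mem_primeFactors hd
    have hdD := Nat.dvd_of_mem_primeFactors hd
    refine out_of hp hr hd fun j hj => ?_
    have n : ∀ {q : ℕ}, Adb D q → ¬ q ∣ d * D ^ j := by
      intro q hq h
      rcases hq.1.dvd_mul.1 h with h | h
      · exact hq.2.2.1 (h.trans hdD)
      · exact hq.2.2.1 (hq.1.dvd_of_dvd_pow h)
    rw [← cm_iff hp.1 hp.2.1 (n hp), ← cm_iff hr.1 hr.2.1 (n hr)]
    exact hs.2.2 d hd j hj

theorem lam_q {q k p : ℕ} (hq : q.Prime) (h9 : q % 9 = 2 ∨ q % 9 = 5) (hk : k = 1 ∨ k = 2)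
    (hp : p.Prime) (h1 : p % 3 = 1) (hc : ¬ CubeMod p q) :
    Adb (q ^ k) p ∧ lam p (q ^ k) * lam p q = k := by
  have n1 : ¬ p ∣ q := by
    intro h
    have := (Nat.prime_dvd_prime_iff_eq hp hq).1 h
    omega
  have h0 : lam p q ≠ 0 := fun h => hc ((cm_iff hp h1 n1).2 h)
  have e := lam_pow LP hp h1 n1 k
  refine ⟨⟨hp, h1, fun h => n1 (hp.dvd_of_dvd_pow h), ?_⟩, ?_⟩
  · rw [e]
    refine mul_ne_zero ?_ h0
    rcases hk with rfl | rfl <;> decide
  · rw [e, mul_assoc, sq_one _ h0, mul_one]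

theorem pairs_q {q k p r : ℕ} (hq : q.Prime) (h9 : q % 9 = 2 ∨ q % 9 = 5) (hk : k = 1 ∨ k = 2)
    (hp : p.Prime) (hr : r.Prime) (hne : p ≠ r) (h1 : p % 3 = 1) (h : p % 9 = r % 9)
    (hcp : ¬ CubeMod p q) (hcr : ¬ CubeMod r q) :
    Good (q ^ k * (p * r ^ 2)) ∨ Good (q ^ k * (p ^ 2 * r)) := by
  obtain ⟨hC, hN⟩ := (good_iff _).1 (base hq h9 hk)
  obtain ⟨a1, a2⟩ := lam_q hq h9 hk hp h1 hcp
  obtain ⟨b1, b2⟩ := lam_q hq h9 hk hr (by omega) hcr
  have hpf : (q ^ k).primeFactors = {q} := by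
    rw [Nat.primeFactors_pow q (by omega), hq.primeFactors]
  have := pair_good hC hN a1 b1 hne h ?_ ?_
  · rcases this with h | h
    · exact Or.inl ((good_iff _).2 h)
    · exact Or.inr ((good_iff _).2 h)
  · intro d hd hd1
    rw [hpf, mem_singleton] at hd
    omega
  · intro d hd
    rw [hpf, mem_singleton] at hd
    subst hd
    rw [a2, b2]

theorem finite_part {D : ℕ} (hD : Good D) (m : ℕ) (S : Finset ℕ) (hS : ∀ p ∈ S, Admissible D p)
    (hc : 9 ^ (18 * m + D.primeFactors.card + 1) ≤ S.card) :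
    S.card.choose (2 * m) ≤ (9 ^ (18 * m + D.primeFactors.card + 1)).choose (2 * m) *
      ((S.powersetCard (2 * m)).filter fun A => ∃ x : ℕ → ℕ, (∀ p ∈ A, x p = 1 ∨ x p = 2) ∧
        Good (D * ∏ p ∈ A, p ^ x p)).card := by
  obtain ⟨hC, hN⟩ := (good_iff D).1 hD
  exact fin_good hC hN S (fun p hp => (adm_iff D p).1 (hS p hp)) m hc _
    fun A _ x hx h1 h2 => ⟨x, hx, (good_iff _).2 ⟨h1, h2⟩⟩

theorem sharp {D : ℕ} (hD : Class D) {A : Finset ℕ} {x : ℕ → ℕ} (hA : A.Nonempty)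
    (h : ∀ p ∈ A, p.Prime ∧ p % 3 = 1 ∧ ¬ p ∣ D ∧ (x p = 1 ∨ x p = 2) ∧ CubeMod p D)
    (h2 : ∀ d ∈ D.primeFactors, d % 3 = 1 → CubeMod d (∏ p ∈ A, p ^ x p))
    (hN : Class (D * ∏ p ∈ A, p ^ x p)) : ¬ TrivialThree (D * ∏ p ∈ A, p ^ x p) := by
  rw [class_iff] at hD hN
  rw [three_iff, triv_iff hN]
  have hok : Ok D A x := ⟨fun p hp => (h p hp).1, fun p hp => (h p hp).2.1,
    fun p hp => (h p hp).2.2.1, fun p hp => (h p hp).2.2.2.1⟩
  refine split_of hD hok hA hN (fun p hp => ?_) fun d hd h1 => ?_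
  · obtain ⟨a1, a2, a3, a4, a5⟩ := h p hp
    exact (cm_iff a1 a2 a3).1 a5
  · have hdp := Nat.prime_of_mem_primeFactors hd
    have n : ¬ d ∣ ∏ p ∈ A, p ^ x p := fun h' => pf_ndvd hok hd (mem_of_dvd hok hdp h')
    exact (cm_iff hdp h1 n).1 (h2 d hd h1)

theorem infinite_part {D : ℕ} (hD : Good D) (S : Set ℕ) (hS : ∀ p ∈ S, p.Prime ∧ p % 3 = 1) :
    (∃ T ⊆ S, T.Infinite ∧ ∃ σ : ℕ, (σ = 1 ∨ σ = 2) ∧ ∀ (m : ℕ) (a : ℕ → ℕ), StrictMono a →
      (∀ i, a i ∈ T) →
        Good (D * ∏ i ∈ range m, (a (2 * i) ^ σ * a (2 * i + 1) ^ (3 - σ)))) ↔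
      {p ∈ S | ¬ p ∣ D ∧ ¬ CubeMod p D}.Infinite := by
  obtain ⟨hC, hN⟩ := (good_iff D).1 hD
  constructor
  · rintro ⟨T, hTS, hT, σ, hσ, hg⟩
    by_contra hfin
    rw [Set.not_infinite] at hfin
    have hT' : (T \ ({p ∈ S | ¬ p ∣ D ∧ ¬ CubeMod p D} ∪ (D.primeFactors : Set ℕ))).Infinite :=
      hT.diff (hfin.union (Finset.finite_toSet _))
    obtain ⟨U, hUT, hU, ⟨y, hy⟩, -⟩ := ram_inf (F := Bool) (fun p => fun d : D.primeFactors => lam d p)
      (fun _ _ => true) _ hT'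
    have hUm : ∀ p ∈ U, p ∈ T ∧ p.Prime ∧ p % 3 = 1 ∧ ¬ p ∣ D ∧ lam p D = 0 := by
      intro p hp
      obtain ⟨h1, h2⟩ := hUT hp
      obtain ⟨h3, h4⟩ := hS p (hTS h1)
      have h5 : ¬ p ∣ D := fun h => h2 (Or.inr (mem_coe.2 (Nat.mem_primeFactors.2 ⟨h3, h, hC.1.1⟩)))
      refine ⟨h1, h3, h4, h5, ?_⟩
      by_contra h6
      exact h2 (Or.inl ⟨hTS h1, h5, fun h => h6 ((cm_iff h3 h4 h5).1 h)⟩)
    set a : ℕ → ℕ := Nat.nth (fun p => p ∈ U) with ha
    have ham : ∀ i, a i ∈ U := fun i => Nat.nth_mem_of_infinite hU i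
    have hamono : StrictMono a := Nat.nth_strictMono hU
    have h := hg 1 a hamono fun i => (hUm _ (ham i)).1
    rw [prod_range_one, mul_zero, zero_add] at h
    obtain ⟨h1, h2⟩ := (good_iff _).1 h
    have hne : a 0 ≠ a 1 := (hamono (by norm_num : 0 < 1)).ne
    have hpr : ∏ p ∈ ({a 0, a 1} : Finset ℕ), p ^ (if p = a 0 then σ else 3 - σ) =
        a 0 ^ σ * a 1 ^ (3 - σ) := by
      rw [prod_pair hne, if_pos rfl, if_neg hne.symm]
    rw [← hpr] at h1 h2
    have hok : Ok D ({a 0, a 1} : Finset ℕ) (fun p => if p = a 0 then σ else 3 - σ) := by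
      refine ⟨fun p hp => ?_, fun p hp => ?_, fun p hp => ?_, fun p hp => ?_⟩
      · rcases mem_insert.1 hp with rfl | hp
        · exact (hUm _ (ham 0)).2.1
        · rw [mem_singleton.1 hp]
          exact (hUm _ (ham 1)).2.1
      · rcases mem_insert.1 hp with rfl | hp
        · exact (hUm _ (ham 0)).2.2.1
        · rw [mem_singleton.1 hp]
          exact (hUm _ (ham 1)).2.2.1
      · rcases mem_insert.1 hp with rfl | hp
        · exact (hUm _ (ham 0)).2.2.2.1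
        · rw [mem_singleton.1 hp]
          exact (hUm _ (ham 1)).2.2.2.1
      · show (if p = a 0 then σ else 3 - σ) = 1 ∨ (if p = a 0 then σ else 3 - σ) = 2
        rcases hσ with h | h <;> split_ifs <;> omega
    refine split_of hC hok ⟨a 0, mem_insert_self _ _⟩ h1 (fun p hp => ?_) (fun d hd hd1 => ?_) h2
    · rcases mem_insert.1 hp with rfl | hp
      · exact (hUm _ (ham 0)).2.2.2.2
      · rw [mem_singleton.1 hp]
        exact (hUm _ (ham 1)).2.2.2.2
    · rw [lam_M hok (Nat.prime_of_mem_primeFactors hd) hd1 (pf_ndvd hok hd), sum_pair hne,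
        if_pos rfl, if_neg hne.symm]
      have e : lam d (a 0) = lam d (a 1) := by
        have h3 := congrFun ((hy _ (ham 0)).trans (hy _ (ham 1)).symm) ⟨d, hd⟩
        exact h3
      rw [e]
      have key : ∀ y : ZMod 3, ((1 : ℕ) : ZMod 3) * y + ((3 - 1 : ℕ) : ZMod 3) * y = 0 ∧
          ((2 : ℕ) : ZMod 3) * y + ((3 - 2 : ℕ) : ZMod 3) * y = 0 := by decide
      rcases hσ with h | h <;> subst h
      · exact (key _).1
      · exact (key _).2
  · intro hinf
    obtain ⟨T, hTS, hT, α, α', hH⟩ := hmg_inf (D := D) hinf fun p hp => by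
      obtain ⟨h1, h2, h3⟩ := hp
      exact (adm_iff D p).1 ⟨(hS p h1).1, (hS p h1).2, h2, h3⟩
    obtain ⟨σ, hσ, h6⟩ := sigma_ex (α - α')
    refine ⟨T, fun p hp => (hTS hp).1, hT, σ, hσ, fun m a ha hm => ?_⟩
    exact (good_iff _).2 (seq_good hC hN hH hσ h6 m (fun i j hij _ => ha hij) fun i _ => hm i)

end proof

/-- (1) `q` and `q²` are good for all primes `q ≡ 2, 5` modulo `9`. If `p ≠ r` are primes `≡ 1` modulo
`3`, congruent modulo `9`, and `q` is no cube modulo `p` and modulo `r`, then for `k = 1, 2` one of the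
numbers `q^k p r²`, `q^k p² r` is good. (2)-(4) for all good `D`: (2) pairs of primes of the same type;
(3) finite sets of admissible primes; (4) infinite sets of primes. (5) Sharpness. -/
theorem result :
    (∀ q k : ℕ, q.Prime → (q % 9 = 2 ∨ q % 9 = 5) → (k = 1 ∨ k = 2) →
      Good (q ^ k) ∧ ∀ p r : ℕ, p.Prime → r.Prime → p ≠ r → p % 3 = 1 → p % 9 = r % 9 →
        ¬ CubeMod p q → ¬ CubeMod r q →
        Good (q ^ k * (p * r ^ 2)) ∨ Good (q ^ k * (p ^ 2 * r))) ∧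
    (∀ D : ℕ, Good D →
      (∀ p r : ℕ, Admissible D p → Admissible D r → p ≠ r → SameType D p r →
        Good (D * (p * r ^ 2)) ∨ Good (D * (p ^ 2 * r))) ∧
      (∀ (m : ℕ) (S : Finset ℕ), (∀ p ∈ S, Admissible D p) →
        9 ^ (18 * m + D.primeFactors.card + 1) ≤ S.card →
        S.card.choose (2 * m) ≤ (9 ^ (18 * m + D.primeFactors.card + 1)).choose (2 * m) *
          ((S.powersetCard (2 * m)).filter fun A => ∃ x : ℕ → ℕ, (∀ p ∈ A, x p = 1 ∨ x p = 2) ∧
            Good (D * ∏ p ∈ A, p ^ x p)).card) ∧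
      ∀ S : Set ℕ, (∀ p ∈ S, p.Prime ∧ p % 3 = 1) →
        ((∃ T ⊆ S, T.Infinite ∧ ∃ σ : ℕ, (σ = 1 ∨ σ = 2) ∧ ∀ (m : ℕ) (a : ℕ → ℕ), StrictMono a →
          (∀ i, a i ∈ T) →
            Good (D * ∏ i ∈ range m, (a (2 * i) ^ σ * a (2 * i + 1) ^ (3 - σ)))) ↔
          {p ∈ S | ¬ p ∣ D ∧ ¬ CubeMod p D}.Infinite)) ∧
    ∀ (D : ℕ) (A : Finset ℕ) (x : ℕ → ℕ), Class D → A.Nonempty →
      (∀ p ∈ A, p.Prime ∧ p % 3 = 1 ∧ ¬ p ∣ D ∧ (x p = 1 ∨ x p = 2) ∧ CubeMod p D) →
      (∀ d ∈ D.primeFactors, d % 3 = 1 → CubeMod d (∏ p ∈ A, p ^ x p)) →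
      Class (D * ∏ p ∈ A, p ^ x p) → ¬ TrivialThree (D * ∏ p ∈ A, p ^ x p) :=
  ⟨fun q k hq h9 hk => ⟨base hq h9 hk, fun p r hp hr hne h1 h hcp hcr =>
      pairs_q hq h9 hk hp hr hne h1 h hcp hcr⟩,
    fun D hD => ⟨fun p r hp hr hne hs => pairs hD hp hr hne hs,
      fun m S hS hc => finite_part hD m S hS hc, fun S hS => infinite_part hD S hS⟩,
    fun D A x hD hA h h2 hN => sharp hD hA h h2 hN⟩

end Pool.Agent.Results.MP_8b7eba_nt.CubicTwistsPrimeSets
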