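import Pool.Agent.U637.TP.B2
import Pool.Agent.R413.SQ.Cor

/-!
# The weak conjecture for the twists of `X_0(49)` by the prime values of almost all integer polynomials

`E_D : y² = x³ - 35 D² x - 98 D³` is the quadratic twist by `D` of `X_0(49)`, `D` a squarefree product of
primes `≡ 1 mod 4` (the class). `Good D` says that `E_D(ℚ)` is finite, `Ш(E_D/ℚ)[2^∞] = 0` and
`L(E_D, s)` is entire with `L(E_D, 1) ≠ 0` (both sides of the weak conjecture fail, nothing is assumed);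
`Bad D` says that `E_D(ℚ)` is infinite or `Ш(E_D/ℚ)[2] ≠ 0`.

Let `𝒟` be ANY finite set of members `D` of the class (of any rank), `V ⊆ 𝒟`, and `F` ANY integer
polynomial of any degree `d ≥ 1` with positive leading coefficient. We twist the curves `E_D`, `D ∈ 𝒟`, by
the primes `q` of the form `a + F(n)` (or `a - F(n)`), and count the `n ≤ y` for which `D q` is good for
all `D ∈ V` and bad for all `D ∈ 𝒟 \ V`. For `ε > 0`, for all but at most `ε A` of the constant terms `a`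
of any interval `(c, c + A]` of length comparable to `x ^ d`, we have for all `y ≤ x`, up to
`ε x / log x`,

`count(y) = ∑ κ(q) over the n ≤ y such that q = a ± F(n) is prime`
`         = V(w)⁻¹ / (d log x) · ∑ κ(a ± F(n)) over the n ≤ y such that a ± F(n) is free of primes ≤ w`

(`w` any large constant, `V(w) = ∏_{p ≤ w} (1 - 1/p)`), where `κ(m) ∈ {0, 1/2, 1}` is an explicit function
of `m` modulo `28 ∏ D`: the density of the pattern among all the primes of the class of `m`. So the prime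
values of almost all polynomials follow, in every residue class, the law of all the primes. For
`𝒟 = V = {1}`: `κ(m) = 1` if `m ≡ 1 mod 4` and `m ≡ 3, 5, 6 mod 7`, `κ(m) = 1/2` if `m ≡ 1 mod 4` and
`m ≡ 1, 2, 4 mod 7`, and `κ(m) = 0` for the other `m`.

At the primes which split in `ℚ(√-7)` the law is not a matter of residue classes: it depends on the
quartic symbol of `-7`, that is on the Frobenius element in a nonabelian extension. New here: a
transference principle for the prime values of almost all polynomials. Let `h` be ANY bounded function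
on the primes which has mean value zero in the residue classes of small moduli; then the sums of `h` over
the prime values `a ± F(n)`, `n ≤ y`, are `o(x / log x)` for almost all `a`
(`Pool/Agent/U637/TP/A6.lean`, `almost`). It is proved with the large sieve for few points (restriction)
for arbitrary weights on the primes, the inverse theorem for Weyl sums, and the behaviour of `h` at the
few rational points where the Weyl sum is large. With Chebotarev's theorem this applies to class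
functions of Frobenius elements whose sums over the cosets of the commutator subgroup vanish
(`mz_class`).
-/

set_option autoImplicit false

open scoped Classical

open WeierstrassCurve

namespace Pool.Agent.Results.MP_8b7eba_nt.PrimesOfRandomPolynomials

open Finset Polynomial Matrix
open Pool.Agent.TH841.NF.D (Sha)
open Pool.Agent.Results.MP_4a9ea6_nt.TwoPartTwistsX49 (mat split nonsq)

/-- the coefficient of `x` -/
def A (D : ℕ) : ℤ := -35 * (D : ℤ) ^ 2

/-- the constant coefficient -/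
def B (D : ℕ) : ℤ := -98 * (D : ℤ) ^ 3

/-- the twist `y² = x³ - 35 D² x - 98 D³` of `X_0(49)` -/
def twist (D : ℕ) : WeierstrassCurve ℚ :=
  { a₁ := 0, a₂ := 0, a₃ := 0, a₄ := (A D : ℚ), a₆ := (B D : ℚ) }

/-- the class: squarefree products of primes `≡ 1 mod 4` -/
def Class (D : ℕ) : Prop := Squarefree D ∧ ∀ p ∈ D.primeFactors, p % 4 = 1

/-- `L(E_D, s)`, the Euler product over the primes `p ∤ 2 (4 a³ + 27 b²)`, `a = A D`, `b = B D`, extends to
an entire function which does not vanish at `s = 1` -/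
def Nonvanishing (D : ℕ) : Prop :=
  4 * A D ^ 3 + 27 * B D ^ 2 ≠ 0 ∧
    ∃ F : ℂ → ℂ, Differentiable ℂ F ∧
      (∀ s : ℂ, (3 : ℝ) / 2 < s.re →
        HasProd
          (fun p : ℕ => if p.Prime ∧ ¬ ((p : ℤ) ∣ 2 * (-4 * A D ^ 3 - 27 * B D ^ 2)) then
              (1 - ((p : ℂ) - (Nat.card {q : ZMod p × ZMod p //
                  q.2 ^ 2 = q.1 ^ 3 + (A D : ZMod p) * q.1 + (B D : ZMod p)} : ℂ))
                  * (p : ℂ) ^ (-s) + (p : ℂ) ^ (1 - 2 * s))⁻¹
            else 1)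
          (F s)) ∧ F 1 ≠ 0

/-- `E_D(ℚ)` is finite, `Ш(E_D/ℚ)[2^∞] = 0` and `L(E_D, 1) ≠ 0` -/
def Good (D : ℕ) : Prop :=
  Finite (twist D).toAffine.Point ∧ (∀ (n : ℕ) (x : Sha (twist D)), 2 ^ n • x = 0 → x = 0) ∧
    Nonvanishing D

/-- `E_D(ℚ)` is infinite, or `Ш(E_D/ℚ)` has an element of order two -/
def Bad (D : ℕ) : Prop :=
  Infinite (twist D).toAffine.Point ∨ ∃ x : Sha (twist D), 2 • x = 0 ∧ x ≠ 0

/-- the primes `q ≡ 1 mod 4`, prime to all the members of `𝒟`, such that `D q` is good for `D ∈ V` and bad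
for `D ∈ 𝒟 \ V` -/
def Pattern (𝒟 V : Finset ℕ) (q : ℕ) : Prop :=
  q.Prime ∧ q % 4 = 1 ∧ (∀ D ∈ 𝒟, ¬ q ∣ D) ∧ ∀ D ∈ 𝒟, (D ∈ V → Good (D * q)) ∧ (D ∉ V → Bad (D * q))

/-- The matrix `mat D` with the symbols `nonsq i m` of `m` modulo the prime factors `i` of `D` which split
in `ℚ(√-7)` added to the diagonal. Here `mat D` is the matrix over the field with two elements indexed by
these `i`, with the entries `nonsq i j` off the diagonal and `nonfourth i + ∑ l | D, l ≠ i, nonsq i l` on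
the diagonal; `nonsq p m` is `1` if `m` is not a square modulo `p` and `0` if it is, and `nonfourth p` is
`1` if `-7` is not a fourth power modulo `p` and `0` if it is. -/
noncomputable def diagMatrix (D m : ℕ) : Matrix (split D) (split D) (ZMod 2) :=
  mat D + diagonal fun i : split D => nonsq i m

/-- the matrix `diagMatrix D m`, bordered by the vector of the `nonsq i m` and by the corner
`t + ∑ l | D, nonsq l m` -/
noncomputable def borderedMatrix (D m : ℕ) (t : ZMod 2) : Matrix (split D ⊕ Unit) (split D ⊕ Unit) (ZMod 2) :=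
  Matrix.fromBlocks (diagMatrix D m) (Matrix.of fun i _ => nonsq i m) (Matrix.of fun _ j => nonsq j m)
    (Matrix.of fun _ _ => t + ∑ l ∈ D.primeFactors, nonsq l m)

/-- The local density: for `m ≡ 1 mod 4` it is `1` or `0` if `m ≡ 3, 5, 6 mod 7`, according as for `D ∈ 𝒟`
the matrix `diagMatrix D m` is nonsingular exactly for the `D ∈ V` or not, and half of the number of the
`t ∈ {0, 1}` such that `borderedMatrix D m t` is nonsingular exactly for the `D ∈ V` if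
`m ≡ 1, 2, 4 mod 7`. -/
noncomputable def kappa (𝒟 V : Finset ℕ) (m : ℕ) : ℝ :=
  if m % 4 = 1 then
    (if m % 7 = 1 ∨ m % 7 = 2 ∨ m % 7 = 4 then
      ((if ∀ D ∈ 𝒟, ((borderedMatrix D m 0).det ≠ 0 ↔ D ∈ V) then 1 else 0) +
        (if ∀ D ∈ 𝒟, ((borderedMatrix D m 1).det ≠ 0 ↔ D ∈ V) then 1 else 0)) / 2
    else if m % 7 = 3 ∨ m % 7 = 5 ∨ m % 7 = 6 then
      (if ∀ D ∈ 𝒟, ((diagMatrix D m).det ≠ 0 ↔ D ∈ V) then 1 else 0) else 0)
  else 0

/-- the number of the `1 ≤ n ≤ y` such that `a + σ F(n)` is a prime with the pattern -/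
noncomputable def count (𝒟 V : Finset ℕ) (F : ℤ[X]) (σ : ℤ) (a y : ℕ) : ℕ :=
  ((Icc 1 y).filter fun n : ℕ => Pattern 𝒟 V ((a : ℤ) + σ * F.eval (n : ℤ)).toNat).card

/-- the sum of `κ(a + σ F(n))` over the `1 ≤ n ≤ y` such that `a + σ F(n)` is prime -/
noncomputable def primeSum (𝒟 V : Finset ℕ) (F : ℤ[X]) (σ : ℤ) (a y : ℕ) : ℝ :=
  ∑ n ∈ (Icc 1 y).filter (fun n : ℕ => ((a : ℤ) + σ * F.eval (n : ℤ)).toNat.Prime),
    kappa 𝒟 V ((a : ℤ) + σ * F.eval (n : ℤ)).toNat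

/-- the sum of `κ(a + σ F(n))` over the `1 ≤ n ≤ y` such that no prime `p ≤ w` divides `a + σ F(n)`; `κ`
is a function of the residue modulo `28 ∏ D` -/
noncomputable def roughSum (𝒟 V : Finset ℕ) (w : ℕ) (F : ℤ[X]) (σ : ℤ) (a y : ℕ) : ℝ :=
  ∑ n ∈ (Icc 1 y).filter (fun n : ℕ => ∀ p : ℕ, p.Prime → p ≤ w → ¬ (p : ℤ) ∣ (a : ℤ) + σ * F.eval (n : ℤ)),
    kappa 𝒟 V (((a : ℤ) + σ * F.eval (n : ℤ)) % ((28 * ∏ D ∈ 𝒟, D : ℕ) : ℤ)).toNat

/-- `V(w) = ∏_{p ≤ w} (1 - 1/p)` -/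
noncomputable def Vw (w : ℕ) : ℝ := ∏ p ∈ (Icc 1 w).filter Nat.Prime, (1 - 1 / (p : ℝ))

/-- the law for one constant term -/
def Law (𝒟 V : Finset ℕ) (F : ℤ[X]) (σ : ℤ) (ε : ℝ) (w x a : ℕ) : Prop := ∀ y ≤ x,
  |(count 𝒟 V F σ a y : ℝ) - primeSum 𝒟 V F σ a y| ≤ ε * (x / Real.log x) ∧
  |(count 𝒟 V F σ a y : ℝ) - (Vw w)⁻¹ * roughSum 𝒟 V w F σ a y / (F.natDegree * Real.log x)| ≤
    ε * (x / Real.log x)

section proof

open Pool.Agent.R413.SQ
open Pool.Agent.Results.MP_4a9ea6_nt.TwoPartTwistsX49 (Adm adm_mod)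
open Pool.Agent.U637.TP
open Pool.Agent.U687.JT (adm_mul)

theorem disc_ne {D : ℕ} (hD : D ≠ 0) : 4 * (A D) ^ 3 + 27 * (B D) ^ 2 ≠ 0 := by
  have h : (D : ℤ) ≠ 0 := by exact_mod_cast hD
  have e : 4 * (A D) ^ 3 + 27 * (B D) ^ 2 = 87808 * (D : ℤ) ^ 6 := by
    unfold A B
    ring
  rw [e]
  positivity

theorem good_of {D : ℕ} (h : Adm D) (hd : (mat D).det ≠ 0) : Good D := by
  obtain ⟨F, g1, g2, g3, -⟩ := Cor.rank_bsd h hd
  refine ⟨((Cor.crit h).2 hd).1, fun n x hx => ?_, disc_ne h.1.ne_zero, F, g1, g2,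
    (g1.analyticAt 1).analyticOrderAt_eq_zero.1 g3⟩
  have h4 := adm_mod h
  have e2 := (Pool.Agent.Y655.XT.isoVR (Cor.vr h4) (Cor.discM h4)).sha
  have key : ∀ z : Sha (Cor.ES D), 2 ^ n • z = 0 → z = 0 := by
    intro z hz
    have h0 : 2 ^ n • e2.symm z = 0 := by
      rw [← map_nsmul, hz, map_zero]
    have h1 := (Pool.Agent.Results.MP_4a9ea6_nt.TwoPartTwistsX49.core h).2.2.2.2.1 hd n (e2.symm z) h0
    exact (map_eq_zero_iff e2.symm e2.symm.injective).1 h1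
  exact key x hx

theorem good_iff {D : ℕ} (h : Adm D) : Good D ↔ (mat D).det ≠ 0 :=
  ⟨fun hG => (Cor.crit h).1 ⟨hG.1, fun x hx => hG.2.1 1 x (by rwa [pow_one])⟩, good_of h⟩

theorem bad_iff {D : ℕ} (h : Adm D) : Bad D ↔ ¬ (mat D).det ≠ 0 := by
  rw [← Cor.crit h]
  constructor
  · rintro (h1 | ⟨x, h1, h2⟩) ⟨h3, h4⟩
    · exact h1.not_finite h3
    · exact h2 (h4 x h1)
  · intro h1
    by_cases h2 : Finite (twist D).toAffine.Point
    · right
      by_contra h3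
      push Not at h3
      exact h1 ⟨h2, h3⟩
    · left
      exact not_finite_iff_infinite.1 h2

theorem pattern_iff {𝒟 V : Finset ℕ} (h𝒟 : ∀ D ∈ 𝒟, Class D) {q : ℕ} :
    Pattern 𝒟 V q ↔ q.Prime ∧ Pat 𝒟 V q := by
  unfold Pattern Pat
  constructor
  · rintro ⟨h1, h2, h3, h4⟩
    refine ⟨h1, h2, h3, fun D hD => ?_⟩
    have h5 := adm_mul (h𝒟 D hD) h1 h2 (h3 D hD)
    obtain ⟨h6, h7⟩ := h4 D hD
    constructor
    · intro h8
      by_contra h9
      exact (bad_iff h5).1 (h7 h9) h8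
    · intro h8
      exact (good_iff h5).1 (h6 h8)
  · rintro ⟨h1, h2, h3, h4⟩
    refine ⟨h1, h2, h3, fun D hD => ?_⟩
    have h5 := adm_mul (h𝒟 D hD) h1 h2 (h3 D hD)
    exact ⟨fun h6 => (good_iff h5).2 ((h4 D hD).2 h6), fun h6 => (bad_iff h5).2 fun h7 => h6 ((h4 D hD).1 h7)⟩

theorem kappa_eq (𝒟 V : Finset ℕ) (m : ℕ) : kappa 𝒟 V m = kap 𝒟 V m := by
  have h0 : (if ∀ D ∈ 𝒟, ((borderedMatrix D m 0).det ≠ 0 ↔ D ∈ V) then (1 : ℝ) else 0) =
      if Usp 𝒟 V m 0 then 1 else 0 := if_congr Iff.rfl rfl rfl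
  have h1 : (if ∀ D ∈ 𝒟, ((borderedMatrix D m 1).det ≠ 0 ↔ D ∈ V) then (1 : ℝ) else 0) =
      if Usp 𝒟 V m 1 then 1 else 0 := if_congr Iff.rfl rfl rfl
  have h2 : (if ∀ D ∈ 𝒟, ((diagMatrix D m).det ≠ 0 ↔ D ∈ V) then (1 : ℝ) else 0) =
      if Uin 𝒟 V m then 1 else 0 := if_congr Iff.rfl rfl rfl
  unfold kappa kap
  rw [h0, h1, h2]

theorem primeSum_eq (𝒟 V : Finset ℕ) (F : ℤ[X]) (σ : ℤ) (a y : ℕ) :
    primeSum 𝒟 V F σ a y = wp (kap 𝒟 V) F σ a y := by
  unfold primeSum wp pv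
  rw [sum_filter]
  exact sum_congr rfl fun n _ => by rw [kappa_eq]

theorem roughSum_eq (𝒟 V : Finset ℕ) (w : ℕ) (F : ℤ[X]) (σ : ℤ) (a y : ℕ) :
    roughSum 𝒟 V w F σ a y = wr (kap 𝒟 V) (md 𝒟) w F σ a y := by
  unfold roughSum wr rough res md
  rw [sum_filter]
  exact sum_congr rfl fun n _ => by rw [kappa_eq]

theorem kappa_one (m : ℕ) : kappa {1} {1} m =
    if m % 4 = 1 then (if m % 7 = 1 ∨ m % 7 = 2 ∨ m % 7 = 4 then 1 / 2 else
      if m % 7 = 3 ∨ m % 7 = 5 ∨ m % 7 = 6 then 1 else 0) else 0 := by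
  have hs : IsEmpty (split 1) := by
    refine ⟨fun i => ?_⟩
    have h1 := (Pool.Agent.U687.JT.mem_split.1 i.2).1
    simp at h1
  have hd : ∀ m : ℕ, (diagMatrix 1 m).det ≠ 0 := by
    intro m
    rw [Matrix.det_isEmpty]
    exact one_ne_zero
  have hb : ∀ (m : ℕ) (t : ZMod 2), (borderedMatrix 1 m t).det = t := by
    intro m t
    unfold borderedMatrix
    have e : diagMatrix 1 m = 1 := Subsingleton.elim _ _
    rw [e, Matrix.det_fromBlocks_one₁₁]
    simp [Matrix.det_unique, Matrix.mul_apply]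
  have h1 : (∀ D ∈ ({1} : Finset ℕ), ((diagMatrix D m).det ≠ 0 ↔ D ∈ ({1} : Finset ℕ))) := by
    intro D hD
    rw [Finset.mem_singleton.1 hD]
    exact ⟨fun _ => Finset.mem_singleton_self 1, fun _ => hd m⟩
  have h2 : (∀ D ∈ ({1} : Finset ℕ), ((borderedMatrix D m 1).det ≠ 0 ↔ D ∈ ({1} : Finset ℕ))) := by
    intro D hD
    rw [Finset.mem_singleton.1 hD, hb]
    exact ⟨fun _ => Finset.mem_singleton_self 1, fun _ => one_ne_zero⟩
  have h3 : ¬ (∀ D ∈ ({1} : Finset ℕ), ((borderedMatrix D m 0).det ≠ 0 ↔ D ∈ ({1} : Finset ℕ))) := by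
    intro h
    have h4 := (h 1 (Finset.mem_singleton_self 1)).2 (Finset.mem_singleton_self 1)
    rw [hb] at h4
    exact h4 rfl
  unfold kappa
  rw [if_pos h1, if_pos h2, if_neg h3]
  norm_num

end proof

/-- **The prime values of almost all polynomials follow the law of all the primes.** -/
theorem result :
    (∀ m : ℕ, kappa {1} {1} m = if m % 4 = 1 then (if m % 7 = 1 ∨ m % 7 = 2 ∨ m % 7 = 4 then 1 / 2 else
      if m % 7 = 3 ∨ m % 7 = 5 ∨ m % 7 = 6 then 1 else 0) else 0) ∧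
    ∀ 𝒟 V : Finset ℕ, (∀ D ∈ 𝒟, Class D) →
      -- `κ` is a function on the residue classes
      (∀ m : ℕ, kappa 𝒟 V m = kappa 𝒟 V (m % (28 * ∏ D ∈ 𝒟, D))) ∧
      ∀ F : ℤ[X], 1 ≤ F.natDegree → 0 < F.leadingCoeff → ∀ B : ℕ, 1 ≤ B → ∀ ε : ℝ, 0 < ε →
        ∃ w₀ : ℕ, ∀ w : ℕ, w₀ ≤ w → ∃ x₀ : ℕ, ∀ x : ℕ, x₀ ≤ x →
          ∀ σ : ℤ, (σ = 1 ∨ σ = -1) → ∀ c A : ℕ, c + A ≤ B * x ^ F.natDegree → x ^ F.natDegree ≤ B * A →
            (σ = -1 → ∀ n : ℕ, 1 ≤ n → n ≤ x → F.eval (n : ℤ) ≤ c) →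
              (((Ioc c (c + A)).filter fun a : ℕ => ¬ Law 𝒟 V F σ ε w x a).card : ℝ) ≤ ε * A := by
  refine ⟨kappa_one, fun 𝒟 V h𝒟 => ⟨fun m => ?_, fun F hd hl B hB ε hε => ?_⟩⟩
  · rw [kappa_eq, kappa_eq]
    exact Pool.Agent.U637.TP.kap_mod 𝒟 V m
  obtain ⟨w₀, h0⟩ := Pool.Agent.U637.TP.law (V := V) F hd hl B hB ε hε h𝒟
  refine ⟨w₀, fun w hw => ?_⟩
  obtain ⟨x₀, h1⟩ := h0 w hw
  refine ⟨x₀, fun x hx σ hσ c A hcA hxA hc => ?_⟩
  have h2 := h1 x hx σ hσ c A hcA hxA hc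
  refine le_trans (le_of_eq ?_) h2
  congr 2
  refine Finset.filter_congr fun a _ => not_congr ?_
  unfold Law
  refine forall₂_congr fun y _ => ?_
  have e : count 𝒟 V F σ a y = ((Icc 1 y).filter fun n : ℕ => ((a : ℤ) + σ * F.eval (n : ℤ)).toNat.Prime ∧
      Pool.Agent.U637.TP.Pat 𝒟 V ((a : ℤ) + σ * F.eval (n : ℤ)).toNat).card := by
    unfold count
    congr 1
    exact Finset.filter_congr fun n _ => pattern_iff h𝒟
  rw [e, primeSum_eq, roughSum_eq]
  exact Iff.rfl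

end Pool.Agent.Results.MP_8b7eba_nt.PrimesOfRandomPolynomials
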