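import Pool.Agent.U120.DL.Uni
import Pool.Agent.R413.SQ.Cor

/-!
# The weak conjecture for the products of `k` primes from ARBITRARY sets of `X^(2/3 + η)` primes up to `X`

`E_D : y² = x³ - 35 D² x - 98 D³` is the quadratic twist by `D` of `X_0(49)`. `Good D` says that `E_D(ℚ)` is
finite, `Ш(E_D/ℚ)[2^∞] = 0` and `L(E_D, s)` is entire with `L(E_D, 1) ≠ 0`: both sides of the weak conjecture
of Birch and Swinnerton-Dyer fail, with no hypothesis.

Let `S` be ANY finite set of primes `≡ 1 mod 4` up to `X`, and `k ≥ 1`. Let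

  `rel = 10 · 3^k · 2^(k²) · √X / |S|^(3/4)`;

this tends to zero as soon as `|S| ≥ X^(2/3 + η)` for a fixed `η > 0` (at the rate `X^(-3η/4)`, and also if `k`
grows like a small multiple of `√(log X)`). There is no other condition: `S` may consist of the primes of a
short interval, of the primes of the form `[n^c]`, of those of the form `a² + b⁴`, or of any adversarial choice.

* THE LAW. The proportion of the `k`-subsets `U` of `S` such that `∏ U` is good differs by at most `rel` from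
  the mean over the `k`-subsets of an explicit chance, which depends only on the numbers `a`, `b`, `c` of the
  elements of `U` which are inert in `ℚ(√-7)`, split with `-7` a fourth power modulo the prime, and split with
  `-7` no fourth power. The symbols between the primes play no role: they behave like independent coins.
* THE LAW FOR BOXES `S_1 × ⋯ × S_k` of different sets.
* If all the primes of `S` are split and `-7` is no fourth power modulo them, the proportion of the good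
  products of `k` primes is `∏_{i < ⌊(k-1)/2⌋} (1 - 2^(-2i-1))`: `1, 1, 1/2, 1/2, 7/16, 7/16, …`.
* LOWER BOUND. If `-7` is a fourth power modulo no element of `S`, then more than 41.9 % of the products are good,
  for every `k`.
* UNIVERSAL LIMIT. If a positive proportion of `S` is split and a positive proportion has `-7` no fourth power,
  then the proportion of the good products tends to `c = ∏_{i ≥ 0} (1 - 2^(-2i-1)) = 0.4194…` for `k → ∞`.

The criterion for a single `D` is that of the starting file `MP_4a9ea6_nt/TwoPartTwistsX49` (in the form of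
`Pool/Agent/R413/SQ/Cor.lean`); the count of the symmetric matrices and the passage from a bilinear estimate to
the joint distribution of the symbols are from the starting library (`Y839`, `Y356`). New here
(`Pool/Agent/U120/DL`): a bilinear estimate for quadratic symbols of arbitrary sets of more than `X^(2/3)`
primes, which is nontrivial for sparse sets, the exact chances (the case without inert primes included), and
the limit. (The joint law of all the partial products is in `MP_03e5d0_nt/JointLawOfDivisorTwists`.)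
-/

set_option autoImplicit false

open scoped Classical

open WeierstrassCurve

namespace Pool.Agent.Results.MP_8b7eba_nt.ProductsFromSparseSets

open Pool.Agent.TH841.NF.D (Sha)

/-- the coefficient of `x` -/
def A (D : ℕ) : ℤ := -35 * (D : ℤ) ^ 2

/-- the constant coefficient -/
def B (D : ℕ) : ℤ := -98 * (D : ℤ) ^ 3

/-- the twist `y² = x³ - 35 D² x - 98 D³` of `X_0(49)` -/
def twist (D : ℕ) : WeierstrassCurve ℚ :=
  { a₁ := 0, a₂ := 0, a₃ := 0, a₄ := (A D : ℚ), a₆ := (B D : ℚ) }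

/-- `L(E_D, s)`, the Euler product over the primes `p ∤ 2 (4 a³ + 27 b²)`, `a = A D`, `b = B D`, extends to
an entire function which does not vanish at `s = 1` -/
def Nonvanishing (D : ℕ) : Prop :=
  4 * A D ^ 3 + 27 * B D ^ 2 ≠ 0 ∧
    ∃ F : ℂ → ℂ, Differentiable ℂ F ∧
      (∀ s : ℂ, (3 : ℝ) / 2 < s.re →
        HasProd
          (fun p : ℕ => if p.Prime ∧ ¬ ((p : ℤ) ∣ 2 * (-4 * A D ^ 3 - 27 * B D ^ 2)) then
              (1 - ((p : ℂ) - (Nat.card {q : ZMod p × ZMod p //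
                  q.2 ^ 2 = q.1 ^ 3 + (A D : ZMod p) * q.1 + (B D : ZMod p)} : ℂ))
                  * (p : ℂ) ^ (-s) + (p : ℂ) ^ (1 - 2 * s))⁻¹
            else 1)
          (F s)) ∧ F 1 ≠ 0

/-- `E_D(ℚ)` is finite, `Ш(E_D/ℚ)[2^∞] = 0` and `L(E_D, 1) ≠ 0` -/
def Good (D : ℕ) : Prop :=
  Finite (twist D).toAffine.Point ∧ (∀ (n : ℕ) (x : Sha (twist D)), 2 ^ n • x = 0 → x = 0) ∧
    Nonvanishing D

/-- `p` is a prime `≡ 1 mod 4` -/
def Prime4 (p : ℕ) : Prop := p.Prime ∧ p % 4 = 1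

/-- `p` splits in `ℚ(√-7)` -/
def Split (p : ℕ) : Prop := IsSquare (-7 : ZMod p)

/-- `-7` is a fourth power modulo `p` -/
def Fourth (p : ℕ) : Prop := ∃ y : ZMod p, y ^ 4 = -7

/-- `∏_{i < ⌊(m+1)/2⌋} (1 - 2^(-2i-1))` -/
noncomputable def rho (m : ℕ) : ℝ := ∏ i ∈ Finset.range ((m + 1) / 2), (1 - (1 / 2 : ℝ) ^ (2 * i + 1))

/-- the chance of a set with `a` inert elements, `b` split ones modulo which `-7` is a fourth power, and `c`
split ones modulo which it is not -/
noncomputable def chance (a b c : ℕ) : ℝ :=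
  if b + c = 0 then 1 else if a ≠ 0 then rho (b + c) else if c = 0 then 0 else
    if Odd c then rho (b + c - 1) else rho (b + c - 2)

/-- the number of the inert elements -/
noncomputable def inertNum (U : Finset ℕ) : ℕ := (U.filter fun p => ¬ Split p).card

/-- the number of the (split) elements modulo which `-7` is a fourth power -/
noncomputable def fourthNum (U : Finset ℕ) : ℕ := (U.filter fun p => Fourth p).card

/-- the number of the split elements modulo which `-7` is no fourth power -/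
noncomputable def otherNum (U : Finset ℕ) : ℕ := (U.filter fun p => Split p ∧ ¬ Fourth p).card

/-- the chance of a set to have a good product -/
noncomputable def goodChance (U : Finset ℕ) : ℝ := chance (inertNum U) (fourthNum U) (otherNum U)

/-- the product of the elements is good -/
def GoodSet (U : Finset ℕ) : Prop := Good (∏ p ∈ U, p)

/-- the proportion of the `k`-subsets of `S` with the property `P` -/
noncomputable def share (k : ℕ) (S : Finset ℕ) (P : Finset ℕ → Prop) : ℝ :=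
  (((S.powersetCard k).filter P).card : ℝ) / (S.card.choose k : ℝ)

/-- the mean of `f` over the `k`-subsets of `S` -/
noncomputable def mean (k : ℕ) (S : Finset ℕ) (f : Finset ℕ → ℝ) : ℝ :=
  (∑ U ∈ S.powersetCard k, f U) / (S.card.choose k : ℝ)

/-- the relative error -/
noncomputable def rel (k X s : ℕ) : ℝ :=
  10 * 3 ^ k * 2 ^ (k ^ 2) * √(X : ℝ) / (s : ℝ) ^ ((3 : ℝ) / 4)

/-- the constant `0.4194…` -/
noncomputable def cc : ℝ := ∏' i : ℕ, (1 - (1 / 2 : ℝ) ^ (2 * i + 1))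

section proof

open Pool.Agent.R413.SQ
open Pool.Agent.Results.MP_4a9ea6_nt.TwoPartTwistsX49 (Adm adm_mod)
open Pool.Agent.U120.DL (P4 lab cl dU chU er)
open Pool.Agent.Y698.SG (n4)

theorem disc_ne {D : ℕ} (hD : D ≠ 0) : 4 * (A D) ^ 3 + 27 * (B D) ^ 2 ≠ 0 := by
  have h : (D : ℤ) ≠ 0 := by exact_mod_cast hD
  have e : 4 * (A D) ^ 3 + 27 * (B D) ^ 2 = 87808 * (D : ℤ) ^ 6 := by
    unfold A B
    ring
  rw [e]
  positivity

theorem good_iff {D : ℕ} (h : Adm D) : Good D ↔ Gd n4 D.primeFactors := by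
  constructor
  · rintro ⟨h1, h2, -⟩
    exact (Cor.det_iff h).1 ((Cor.crit h).1 ⟨h1, fun x hx => h2 1 x (by rwa [pow_one])⟩)
  · intro hG
    have hd := (Cor.det_iff h).2 hG
    obtain ⟨F, g1, g2, g3, -⟩ := Cor.rank_bsd h hd
    refine ⟨((Cor.crit h).2 hd).1, fun n x hx => ?_, disc_ne h.1.ne_zero, F, g1, g2,
      (g1.analyticAt 1).analyticOrderAt_eq_zero.1 g3⟩
    have h4 := adm_mod h
    have e2 := (Pool.Agent.Y655.XT.isoVR (Cor.vr h4) (Cor.discM h4)).sha
    have h1 := (Pool.Agent.Results.MP_4a9ea6_nt.TwoPartTwistsX49.core h).2.2.2.2.1 hd n (e2.symm x)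
      (by rw [← map_nsmul]; exact (congrArg e2.symm hx).trans (map_zero _))
    exact (map_eq_zero_iff e2.symm e2.symm.injective).1 h1

theorem prod_fac {S : Finset ℕ} (h : ∀ p ∈ S, p.Prime ∧ p % 4 = 1) :
    Adm (∏ p ∈ S, p) ∧ (∏ p ∈ S, p).primeFactors = S := by
  have h1 : (∏ p ∈ S, p).primeFactors = S := Nat.primeFactors_prod fun p hp => (h p hp).1
  refine ⟨⟨?_, fun p hp => ?_⟩, h1⟩
  · refine Finset.squarefree_prod_of_pairwise_isCoprime ?_ fun p hp => (h p hp).1.squarefree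
    intro p hp q hq hpq
    exact Nat.coprime_iff_isRelPrime.1 ((Nat.coprime_primes (h p hp).1 (h q hq).1).2 hpq)
  · rw [h1] at hp
    exact (h p hp).2

theorem goodSet_iff {U : Finset ℕ} (h : ∀ p ∈ U, Prime4 p) : GoodSet U ↔ Gd n4 U := by
  obtain ⟨h1, h2⟩ := prod_fac h
  unfold GoodSet
  rw [good_iff h1, h2]

theorem lab_cases {p : ℕ} (h : Prime4 p) :
    (lab p = 0 ↔ ¬ Split p) ∧ (lab p = 1 ↔ Fourth p) ∧ (lab p = 2 ↔ Split p ∧ ¬ Fourth p) := by
  have hs : Split p ↔ R413.SQ.mk p = 1 := Cor.mk_iff h.1 h.2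
  have hfs : Fourth p → Split p := by
    rintro ⟨y, hy⟩
    exact ⟨y ^ 2, by rw [← hy]; ring⟩
  have hn : n4 p = 1 ↔ ¬ Fourth p := Pool.Agent.U120.MF.n4_one
  unfold Pool.Agent.U120.DL.lab
  by_cases h1 : R413.SQ.mk p = 1
  · have h2 := hs.2 h1
    by_cases h3 : Fourth p
    · rw [if_pos h1, if_neg fun h => (hn.1 h) h3]
      exact ⟨⟨fun h => absurd h (by decide), fun h => absurd h2 h⟩, ⟨fun _ => h3, fun _ => rfl⟩,
        ⟨fun h => absurd h (by decide), fun h => absurd h3 h.2⟩⟩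
    · rw [if_pos h1, if_pos (hn.2 h3)]
      exact ⟨⟨fun h => absurd h (by decide), fun h => absurd h2 h⟩,
        ⟨fun h => absurd h (by decide), fun h => absurd h h3⟩, ⟨fun _ => ⟨h2, h3⟩, fun _ => rfl⟩⟩
  · have h2 : ¬ Split p := fun h => h1 (hs.1 h)
    rw [if_neg h1]
    exact ⟨⟨fun _ => h2, fun _ => rfl⟩, ⟨fun h => absurd h (by decide), fun h => absurd (hfs h) h2⟩,
      ⟨fun h => absurd h (by decide), fun h => absurd h.1 h2⟩⟩

theorem card_iff {s : Finset ℕ} {P Q : ℕ → Prop} [DecidablePred P] [DecidablePred Q]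
    (h : ∀ x ∈ s, (P x ↔ Q x)) : (s.filter P).card = (s.filter Q).card := by
  refine congrArg Finset.card (Finset.ext fun x => ?_)
  rw [Finset.mem_filter, Finset.mem_filter]
  exact and_congr_right fun hx => h x hx

theorem inert_eq {U : Finset ℕ} (h : ∀ p ∈ U, Prime4 p) : inertNum U = cl 0 U :=
  card_iff fun p hp => (lab_cases (h p hp)).1.symm

theorem fourth_eq {U : Finset ℕ} (h : ∀ p ∈ U, Prime4 p) : fourthNum U = cl 1 U :=
  card_iff fun p hp => (lab_cases (h p hp)).2.1.symm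

theorem other_eq {U : Finset ℕ} (h : ∀ p ∈ U, Prime4 p) : otherNum U = cl 2 U :=
  card_iff fun p hp => (lab_cases (h p hp)).2.2.symm

theorem goodChance_eq {U : Finset ℕ} (h : ∀ p ∈ U, Prime4 p) : goodChance U = chU U := by
  unfold goodChance Pool.Agent.U120.DL.chU
  rw [inert_eq h, fourth_eq h, other_eq h]
  rfl

theorem ind_iff {P Q : Prop} [Decidable P] [Decidable Q] (h : P ↔ Q) :
    (if P then (1 : ℝ) else 0) = if Q then 1 else 0 := by
  by_cases hP : P
  · rw [if_pos hP, if_pos (h.1 hP)]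
  · rw [if_neg hP, if_neg fun hQ => hP (h.2 hQ)]

theorem good_dU {U : Finset ℕ} (h : ∀ p ∈ U, Prime4 p) :
    (if GoodSet U then (1 : ℝ) else 0) - goodChance U = dU U := by
  rw [goodChance_eq h, ind_iff (goodSet_iff h)]
  rfl

theorem mem_pc {S : Finset ℕ} {X : ℕ} (hS : ∀ p ∈ S, Prime4 p ∧ p ≤ X) {k : ℕ} {U : Finset ℕ}
    (hU : U ∈ S.powersetCard k) : ∀ p ∈ U, Prime4 p := fun p hp =>
  (hS p ((Finset.mem_powersetCard.1 hU).1 hp)).1

theorem share_sub {S : Finset ℕ} {k : ℕ} (P : Finset ℕ → Prop) (f d : Finset ℕ → ℝ)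
    (h : ∀ U ∈ S.powersetCard k, (if P U then (1 : ℝ) else 0) - f U = d U) :
    share k S P - mean k S f = (∑ U ∈ S.powersetCard k, d U) / (S.card.choose k : ℝ) := by
  unfold share mean
  rw [← sub_div]
  congr 1
  rw [← Finset.sum_congr rfl h, Finset.sum_sub_distrib, Finset.sum_boole]

theorem pos_of {k X : ℕ} {S : Finset ℕ} (hk : 1 ≤ k) (hS : ∀ p ∈ S, Prime4 p ∧ p ≤ X)
    (hs : 2 * k ^ 2 ≤ S.card) : 1 ≤ X ∧ S.Nonempty := by
  have h1 : 0 < S.card := by
    have : 0 < k ^ 2 := by positivity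
    omega
  have h2 := Finset.card_pos.1 h1
  refine ⟨?_, h2⟩
  obtain ⟨p, hp⟩ := h2
  exact (hS p hp).1.1.one_le.trans (hS p hp).2

theorem law_good {k X : ℕ} {S : Finset ℕ} (hk : 1 ≤ k) (hS : ∀ p ∈ S, Prime4 p ∧ p ≤ X)
    (hs : 2 * k ^ 2 ≤ S.card) : |share k S GoodSet - mean k S goodChance| ≤ rel k X S.card := by
  obtain ⟨hX, hn⟩ := pos_of hk hS hs
  rw [share_sub GoodSet goodChance dU fun U hU => good_dU (mem_pc hS hU)]
  exact Pool.Agent.U120.DL.rel hk hs (Pool.Agent.U120.DL.law hX hS hk hn)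

theorem choose_pos {k : ℕ} {S : Finset ℕ} (hs : 2 * k ^ 2 ≤ S.card) :
    (0 : ℝ) < (S.card.choose k : ℝ) := by
  have hks : k ≤ S.card := by nlinarith
  exact_mod_cast Nat.choose_pos hks

theorem mean_const {k : ℕ} {S : Finset ℕ} (hs : 2 * k ^ 2 ≤ S.card) {f : Finset ℕ → ℝ} {x : ℝ}
    (h : ∀ U ∈ S.powersetCard k, f U = x) : mean k S f = x := by
  unfold mean
  rw [Finset.sum_congr rfl h, Finset.sum_const, Finset.card_powersetCard, nsmul_eq_mul,
    mul_div_cancel_left₀ _ (choose_pos hs).ne']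

theorem law_split {k X : ℕ} {S : Finset ℕ} (hk : 1 ≤ k) (hS : ∀ p ∈ S, Prime4 p ∧ p ≤ X)
    (hs : 2 * k ^ 2 ≤ S.card) (h : ∀ p ∈ S, Split p ∧ ¬ Fourth p) :
    |share k S GoodSet - ∏ i ∈ Finset.range ((k - 1) / 2), (1 - (1 / 2 : ℝ) ^ (2 * i + 1))| ≤
      rel k X S.card := by
  have hl : ∀ U ∈ S.powersetCard k, ∀ p ∈ U, lab p = 2 := fun U hU p hp =>
    (lab_cases (mem_pc hS hU p hp)).2.2.2 (h p ((Finset.mem_powersetCard.1 hU).1 hp))
  have h1 : mean k S goodChance =
      ∏ i ∈ Finset.range ((k - 1) / 2), (1 - (1 / 2 : ℝ) ^ (2 * i + 1)) := by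
    refine mean_const hs fun U hU => ?_
    have hc := (Finset.mem_powersetCard.1 hU).2
    rw [goodChance_eq (mem_pc hS hU), Pool.Agent.U120.DL.chU_two (hl U hU) (by omega), hc]
  rw [← h1]
  exact law_good hk hS hs

theorem law_lower {k X : ℕ} {S : Finset ℕ} (hk : 1 ≤ k) (hS : ∀ p ∈ S, Prime4 p ∧ p ≤ X)
    (hs : 2 * k ^ 2 ≤ S.card) (h : ∀ p ∈ S, ¬ Fourth p) :
    cc - rel k X S.card ≤ share k S GoodSet := by
  have h1 := (abs_le.1 (law_good hk hS hs)).1
  have h2 : cc ≤ mean k S goodChance := by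
    unfold mean
    rw [le_div_iff₀ (choose_pos hs)]
    have h3 : ∑ _U ∈ S.powersetCard k, cc ≤ ∑ U ∈ S.powersetCard k, goodChance U := by
      refine Finset.sum_le_sum fun U hU => ?_
      rw [goodChance_eq (mem_pc hS hU)]
      refine Pool.Agent.U120.DL.chU_ge fun p hp hl => ?_
      exact h p ((Finset.mem_powersetCard.1 hU).1 hp) ((lab_cases (mem_pc hS hU p hp)).2.1.1 hl)
    rw [Finset.sum_const, Finset.card_powersetCard, nsmul_eq_mul] at h3
    linarith
  linarith

theorem prime_image {k : ℕ} {C : Fin k → Finset ℕ} {X : ℕ}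
    (hC : ∀ i, ∀ p ∈ C i, Prime4 p ∧ p ≤ X) {p : Fin k → ℕ}
    (hp : p ∈ (Fintype.piFinset C).filter Function.Injective) :
    ∀ q ∈ Finset.univ.image p, Prime4 q := by
  intro q hq
  rw [Finset.mem_filter, Fintype.mem_piFinset] at hp
  obtain ⟨i, -, rfl⟩ := Finset.mem_image.1 hq
  exact (hC i _ (hp.1 i)).1

theorem law_box {k X s : ℕ} {C : Fin k → Finset ℕ} (hk : 1 ≤ k) (hX : 1 ≤ X) (hs : 1 ≤ s)
    (hC : ∀ i, ∀ p ∈ C i, Prime4 p ∧ p ≤ X) (hCs : ∀ i, (C i).card ≤ s) :
    |∑ p ∈ (Fintype.piFinset C).filter Function.Injective,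
        ((if GoodSet (Finset.univ.image p) then (1 : ℝ) else 0) - goodChance (Finset.univ.image p))| ≤
      rel k X s / 2 * (s : ℝ) ^ k := by
  have e : rel k X s / 2 * (s : ℝ) ^ k = er k X s := by
    unfold rel Pool.Agent.U120.DL.er
    ring
  rw [e, Finset.sum_congr rfl fun p hp => good_dU (prime_image hC hp)]
  exact Pool.Agent.U120.DL.box hk hX hs C hC hCs

theorem rel_small {η : ℝ} {k X s : ℕ} (hX : 1 ≤ X) (h : (X : ℝ) ^ (2 / 3 + η) ≤ s) :
    rel k X s ≤ 10 * 3 ^ k * 2 ^ (k ^ 2) / (X : ℝ) ^ (3 * η / 4) := by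
  have hX0 : (0 : ℝ) < X := by exact_mod_cast hX
  have h1 : √(X : ℝ) * (X : ℝ) ^ (3 * η / 4) ≤ (s : ℝ) ^ ((3 : ℝ) / 4) := by
    have h2 : ((X : ℝ) ^ (2 / 3 + η)) ^ ((3 : ℝ) / 4) ≤ (s : ℝ) ^ ((3 : ℝ) / 4) :=
      Real.rpow_le_rpow (by positivity) h (by norm_num)
    refine le_trans (le_of_eq ?_) h2
    rw [Real.sqrt_eq_rpow, ← Real.rpow_add hX0, ← Real.rpow_mul hX0.le]
    congr 1
    ring
  have hs0 : 0 < (s : ℝ) ^ ((3 : ℝ) / 4) := lt_of_lt_of_le (by positivity) h1
  unfold rel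
  rw [div_le_div_iff₀ hs0 (by positivity)]
  calc 10 * 3 ^ k * 2 ^ (k ^ 2) * √(X : ℝ) * (X : ℝ) ^ (3 * η / 4) =
      10 * 3 ^ k * 2 ^ (k ^ 2) * (√(X : ℝ) * (X : ℝ) ^ (3 * η / 4)) := by ring
    _ ≤ _ := mul_le_mul_of_nonneg_left h1 (by positivity)

theorem law_lim {δ ε : ℝ} (hδ : 0 < δ) (hε : 0 < ε) : ∃ k₀ : ℕ, ∀ k : ℕ, k₀ ≤ k →
    ∀ (X : ℕ) (S : Finset ℕ), (∀ p ∈ S, Prime4 p ∧ p ≤ X) → 2 * k ^ 2 ≤ S.card →
      δ * (S.card : ℝ) ≤ ((S.filter Split).card : ℝ) →
      δ * (S.card : ℝ) ≤ ((S.filter fun p => ¬ Fourth p).card : ℝ) →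
      |share k S GoodSet - cc| ≤ ε + rel k X S.card := by
  obtain ⟨k₀, hk₀, h⟩ := Pool.Agent.U120.DL.univ_lim (δ := min δ (1 / 2)) (ε := ε)
    (lt_min hδ (by norm_num)) (min_le_right _ _) hε
  refine ⟨k₀, fun k hk X S hS hs h0 h1 => ?_⟩
  have hk1 : 1 ≤ k := hk₀.trans hk
  have hmin : min δ (1 / 2) * (S.card : ℝ) ≤ δ * (S.card : ℝ) :=
    mul_le_mul_of_nonneg_right (min_le_left _ _) (Nat.cast_nonneg _)
  have c0 : (S.filter Split).card = (S.filter fun p => lab p ≠ 0).card :=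
    card_iff fun p hp => by
      have := (lab_cases (hS p hp).1).1
      rw [Ne, this, not_not]
  have c1 : (S.filter fun p => ¬ Fourth p).card = (S.filter fun p => lab p ≠ 1).card :=
    card_iff fun p hp => by
      have := (lab_cases (hS p hp).1).2.1
      rw [Ne, this]
  rw [c0] at h0
  rw [c1] at h1
  have h2 := h k hk S hs (hmin.trans h0) (hmin.trans h1)
  have h3 := law_good hk1 hS hs
  have hc := choose_pos hs
  have h4 : |mean k S goodChance - cc| ≤ ε := by
    have e1 : mean k S goodChance - cc =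
        (∑ U ∈ S.powersetCard k, (chU U - Pool.Agent.U120.DL.cc)) / (S.card.choose k : ℝ) := by
      unfold mean
      rw [eq_div_iff hc.ne', sub_mul, div_mul_cancel₀ _ hc.ne', Finset.sum_sub_distrib,
        Finset.sum_const, Finset.card_powersetCard, nsmul_eq_mul,
        Finset.sum_congr rfl fun U hU => goodChance_eq (mem_pc hS hU)]
      show _ - cc * _ = _ - _ * cc
      ring
    rw [e1, abs_div, abs_of_pos hc, div_le_iff₀ hc]
    exact h2
  calc |share k S GoodSet - cc| = |(share k S GoodSet - mean k S goodChance) +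
        (mean k S goodChance - cc)| := by ring_nf
    _ ≤ |share k S GoodSet - mean k S goodChance| + |mean k S goodChance - cc| := abs_add_le _ _
    _ ≤ ε + rel k X S.card := by linarith

end proof

theorem result :
    (∀ (k X : ℕ) (S : Finset ℕ), 1 ≤ k → (∀ p ∈ S, Prime4 p ∧ p ≤ X) → 2 * k ^ 2 ≤ S.card →
      -- the law
      |share k S GoodSet - mean k S goodChance| ≤ rel k X S.card ∧
      -- the split primes modulo which `-7` is no fourth power
      ((∀ p ∈ S, Split p ∧ ¬ Fourth p) →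
        |share k S GoodSet - ∏ i ∈ Finset.range ((k - 1) / 2), (1 - (1 / 2 : ℝ) ^ (2 * i + 1))| ≤
          rel k X S.card) ∧
      -- the lower bound
      ((∀ p ∈ S, ¬ Fourth p) → cc - rel k X S.card ≤ share k S GoodSet)) ∧
    -- the boxes
    (∀ (k X s : ℕ) (C : Fin k → Finset ℕ), 1 ≤ k → 1 ≤ X → 1 ≤ s →
      (∀ i, ∀ p ∈ C i, Prime4 p ∧ p ≤ X) → (∀ i, (C i).card ≤ s) →
      |∑ p ∈ (Fintype.piFinset C).filter Function.Injective,
        ((if GoodSet (Finset.univ.image p) then (1 : ℝ) else 0) - goodChance (Finset.univ.image p))| ≤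
        rel k X s / 2 * (s : ℝ) ^ k) ∧
    -- the error for the sets of more than `X ^ (2/3 + η)` elements
    (∀ (η : ℝ) (k X s : ℕ), 1 ≤ X → (X : ℝ) ^ (2 / 3 + η) ≤ s →
      rel k X s ≤ 10 * 3 ^ k * 2 ^ (k ^ 2) / (X : ℝ) ^ (3 * η / 4)) ∧
    -- the limit
    (∀ δ ε : ℝ, 0 < δ → 0 < ε → ∃ k₀ : ℕ, ∀ k : ℕ, k₀ ≤ k →
      ∀ (X : ℕ) (S : Finset ℕ), (∀ p ∈ S, Prime4 p ∧ p ≤ X) → 2 * k ^ 2 ≤ S.card →
        δ * (S.card : ℝ) ≤ ((S.filter Split).card : ℝ) →
        δ * (S.card : ℝ) ≤ ((S.filter fun p => ¬ Fourth p).card : ℝ) →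
        |share k S GoodSet - cc| ≤ ε + rel k X S.card) ∧
    0.4194 < cc ∧ cc < 0.4195 :=
  ⟨fun _ _ _ hk hS hs => ⟨law_good hk hS hs, fun h => law_split hk hS hs h,
    fun h => law_lower hk hS hs h⟩,
    fun _ _ _ _ hk hX hs hC hCs => law_box hk hX hs hC hCs,
    fun _ _ _ _ hX h => rel_small hX h, fun _ _ hδ hε => law_lim hδ hε,
    Pool.Agent.U120.DL.cc_num⟩

end Pool.Agent.Results.MP_8b7eba_nt.ProductsFromSparseSets
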